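import Pool.Agent.TH555.FG.WStep

/-! The distortion step, second part (helper555). -/

namespace Pool.Agent.TH555.FG

open Subgroup
open Pool.Agent.H785R3.GrowthA (gam gam_comm gam_succ_le)
open scoped InnerProductSpace Pointwise commutatorElement

universe u v

lemma exists_unif {α : Type*} {X : Set α} (hX : X.Finite) {P : α → ℝ → Prop}
    (hmono : ∀ x R R', R ≤ R' → P x R → P x R') (h : ∀ x ∈ X, ∃ R, P x R) :
    ∃ R, 0 ≤ R ∧ ∀ x ∈ X, P x R := by
  classical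
  have h' : ∀ x, ∃ R, x ∈ X → P x R := by
    intro x
    by_cases hx : x ∈ X
    · obtain ⟨R, hR⟩ := h x hx
      exact ⟨R, fun _ => hR⟩
    · exact ⟨0, fun h => absurd h hx⟩
  choose f hf using h'
  obtain ⟨B, hB⟩ := (hX.image f).bddAbove
  refine ⟨max B 0, le_max_right _ _, fun x hx => hmono x (f x) _ ?_ (hf x hx)⟩
  exact (hB ⟨x, hx, rfl⟩).trans (le_max_left _ _)

section

variable {G : Type u} [Group G]

/-- conjugation by `g` on a normal subgroup -/
def cj (Γ : Subgroup G) [hΓ : Γ.Normal] (g : G) (h : Γ) : Γ :=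
  ⟨g⁻¹ * h * g, by simpa using hΓ.conj_mem h h.2 g⁻¹⟩

variable {Γ : Subgroup G} [Γ.Normal]

lemma cj_one (g : G) : cj Γ g 1 = 1 := by
  apply Subtype.ext; simp [cj]

lemma cj_mul (g : G) (a b : Γ) : cj Γ g (a * b) = cj Γ g a * cj Γ g b := by
  apply Subtype.ext
  simp only [cj, Subgroup.coe_mul]
  group

lemma cj_comp (y g : G) (h : Γ) : cj Γ (y * g) h = cj Γ g (cj Γ y h) := by
  apply Subtype.ext
  simp only [cj]
  group

lemma one_cj (h : Γ) : cj Γ 1 h = h := by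
  apply Subtype.ext; simp [cj]

variable {m : ℕ} {ψ : Γ →* Multiplicative (Fin m → ℤ)} {X : Set Γ} {S : Set G}

/-- `h` is reached from `1` by a path in the ball of radius `R` -/
def Dsp (X : Set Γ) (ψ : Γ →* Multiplicative (Fin m → ℤ)) (R : ℝ) (h : Γ) : Prop :=
  Conn X (fun a => ‖ph ψ a‖ ≤ R) 1 h

lemma Dsp.mono {R R' : ℝ} (hR : R ≤ R') {h : Γ} (hh : Dsp X ψ R h) : Dsp X ψ R' h :=
  Conn.mono (fun _ hw => le_trans hw hR) hh

lemma Dsp.exists (hX : ∀ x ∈ X, x⁻¹ ∈ X) (hgen : closure X = ⊤) (h : Γ) : ∃ R, Dsp X ψ R h := by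
  obtain ⟨n, hn⟩ := exists_reg ψ hX hgen 0 h
  refine ⟨n + 1, hn.mono ?_⟩
  intro w hw
  have h1 : ‖ph ψ w‖ ^ 2 ≤ 0 + n := hw
  have h2 : (0 : ℝ) ≤ n := Nat.cast_nonneg n
  by_contra hcon
  push Not at hcon
  nlinarith

lemma Dsp.cj (hinv : ∀ g h, ψ (cj Γ g h) = ψ h) {C : ℝ} {s : G}
    (hs : ∀ x ∈ X, Dsp X ψ C (cj Γ s x)) (hC : 0 ≤ C) {R : ℝ} {h : Γ} (hh : Dsp X ψ R h) :
    Dsp X ψ (R + C) (FG.cj Γ s h) := by
  have hph : ∀ g h, ph ψ (FG.cj Γ g h) = ph ψ h := by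
    intro g h; unfold ph; rw [hinv]
  unfold Dsp at hh
  induction hh with
  | refl => rw [cj_one]; exact Conn.rfl'
  | @tail a b _ hst ih =>
    obtain ⟨ha, hb, hx⟩ := hst
    obtain ⟨x, rfl⟩ : ∃ x, b = a * x := ⟨a⁻¹ * b, by group⟩
    have hx' : x ∈ X := by simpa using hx
    have h1 := (hs x hx').translate (P' := fun a => ‖ph ψ a‖ ≤ R + C) (FG.cj Γ s a) (by
      intro w hw
      rw [ph_mul, hph]
      exact (norm_add_le _ _).trans (add_le_add ha hw))
    rw [mul_one, ← cj_mul] at h1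
    exact ih.trans h1

lemma Dsp.list (hinv : ∀ g h, ψ (FG.cj Γ g h) = ψ h) {C : ℝ} (hC : 0 ≤ C)
    (hs : ∀ s, s ∈ S ∨ s⁻¹ ∈ S → ∀ x ∈ X, Dsp X ψ C (FG.cj Γ s x)) :
    ∀ (l : List G), (∀ y ∈ l, y ∈ S ∨ y⁻¹ ∈ S) → ∀ (R : ℝ) (h : Γ), Dsp X ψ R h →
      Dsp X ψ (R + l.length * C) (FG.cj Γ l.prod h) := by
  intro l
  induction l with
  | nil => intro _ R h hh; simpa [one_cj] using hh
  | cons y l ih =>
    intro hl R h hh
    rw [List.prod_cons, cj_comp]
    have h1 := Dsp.cj hinv (hs y (hl y (by simp))) hC hh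
    have h2 := ih (fun z hz => hl z (by simp [hz])) _ _ h1
    refine h2.mono (le_of_eq ?_)
    simp only [List.length_cons]; push_cast; ring

lemma Dsp.wl (hinv : ∀ g h, ψ (FG.cj Γ g h) = ψ h) {C : ℝ} (hC : 0 ≤ C)
    (hs : ∀ s, s ∈ S ∨ s⁻¹ ∈ S → ∀ x ∈ X, Dsp X ψ C (FG.cj Γ s x)) {n : ℕ} {g : G} (hg : WL S n g)
    {R : ℝ} {h : Γ} (hh : Dsp X ψ R h) : Dsp X ψ (R + n * C) (FG.cj Γ g h) := by
  obtain ⟨l, h1, h2, rfl⟩ := hg
  refine (Dsp.list hinv hC hs l h2 R h hh).mono ?_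
  have : (l.length : ℝ) ≤ n := by exact_mod_cast h1
  nlinarith

end

section main

variable {G : Type u} [Group G] {S : Set G}

set_option maxHeartbeats 4000000 in
theorem ker_fg_gam (hfin : S.Finite) (hS : closure S = ⊤) {n : ℕ} (hn : 1 ≤ n)
    (hfg : (gam G n).FG) {m : ℕ} (ψ : gam G n →* Multiplicative (Fin m → ℤ))
    (hψ : Function.Surjective ψ) (hk : ∀ h : gam G n, (h : G) ∈ gam G (n + 1) → ψ h = 1) :
    ψ.ker.FG := by
  classical
  have hfg' : Group.FG (gam G n) := (Group.fg_iff_subgroup_fg _).2 hfg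
  obtain ⟨X0, hX0, hX0fin⟩ := (Subgroup.fg_iff _).1 hfg'.out
  set X : Set (gam G n) := X0 ∪ X0⁻¹ with hXdef
  have hXfin : X.Finite := hX0fin.union hX0fin.inv
  have hX : ∀ x ∈ X, x⁻¹ ∈ X := by
    intro x hx
    rcases hx with hx | hx
    · right; simpa using hx
    · left; simpa using hx
  have hgen : closure X = ⊤ := by
    rw [eq_top_iff, ← hX0]
    exact closure_mono Set.subset_union_left
  have hφ := ph_mul ψ
  have hinv : ∀ g h, ψ (cj (gam G n) g h) = ψ h := by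
    intro g h
    have h1 : ψ (h⁻¹ * cj (gam G n) g h) = 1 := by
      apply hk
      have : ((h⁻¹ * cj (gam G n) g h : gam G n) : G) = ⁅((h : G)⁻¹), g⁻¹⁆ := by
        rw [commutatorElement_def]
        simp only [cj, Subgroup.coe_mul, Subgroup.coe_inv]
        group
      rw [this]
      exact gam_comm (inv_mem h.2) _
    rw [map_mul, map_inv, inv_mul_eq_one] at h1
    exact h1.symm
  -- constants
  obtain ⟨K, hK0, hK⟩ := exists_unif hXfin (P := fun x R => ‖ph ψ x‖ ≤ R)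
    (fun x R R' h1 h2 => le_trans h2 h1) (fun x _ => ⟨_, le_rfl⟩)
  have hSfin : (S ∪ S⁻¹).Finite := hfin.union hfin.inv
  obtain ⟨C, hC0, hC⟩ := exists_unif (hSfin.prod hXfin)
    (P := fun q R => Dsp X ψ R (cj (gam G n) q.1 q.2))
    (fun x R R' h1 h2 => h2.mono h1) (fun q _ => Dsp.exists hX hgen _)
  have hC' : ∀ s, s ∈ S ∨ s⁻¹ ∈ S → ∀ x ∈ X, Dsp X ψ C (cj (gam G n) s x) := by
    intro s hs x hx
    refine hC (s, x) ⟨?_, hx⟩
    rcases hs with h | h
    · exact Or.inl h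
    · exact Or.inr (by simpa using h)
  have hd := distortion hS n
  obtain ⟨Ca, hCa0, hCa⟩ := exists_unif hXfin
    (P := fun x R => ∀ N : ℕ, ∃ g ∈ gam G n, (∃ k : ℕ, (k : ℝ) ≤ R * N ∧ WL S k g) ∧
      (g : G ⧸ gam G (n + 1)) = ((x : G) : G ⧸ gam G (n + 1)) ^ N ^ (n + 1))
    (fun x R R' h1 h2 N => by
      obtain ⟨g, hg, ⟨k, hk1, hk2⟩, hg2⟩ := h2 N
      exact ⟨g, hg, ⟨k, hk1.trans (mul_le_mul_of_nonneg_right h1 (Nat.cast_nonneg N)), hk2⟩, hg2⟩)
    (fun x _ => by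
      obtain ⟨C, hC⟩ := hd x x.2
      refine ⟨C, fun N => ?_⟩
      obtain ⟨g, hg, hg1, hg2⟩ := hC N
      exact ⟨g, hg, ⟨C * N, by push_cast; exact le_rfl, hg1⟩, hg2⟩)
  refine ker_fg_of_push ψ hψ hXfin hX hgen ?_
  intro c hc
  -- choice of N
  obtain ⟨N, hN⟩ := exists_nat_ge (max 1 ((K + Ca * C + 1) / c))
  have hN1 : (1 : ℝ) ≤ N := (le_max_left _ _).trans hN
  have hN2 : K + Ca * C + 1 ≤ c * N := by
    have := (le_max_right _ _).trans hN
    rw [div_le_iff₀ hc] at this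
    linarith
  set A : ℝ := (N : ℝ) ^ (n + 1) with hA
  set RN : ℝ := K + Ca * N * C with hRN
  have hRN0 : 0 ≤ RN := by positivity
  have hA2 : (N : ℝ) * N ≤ A := by
    rw [hA, ← pow_two]
    exact pow_le_pow_right₀ hN1 (by omega)
  have hA0 : 0 ≤ A := by positivity
  have hAR : RN + 1 ≤ c * A := by
    have h1 : c * (N * N) ≤ c * A := mul_le_mul_of_nonneg_left hA2 hc.le
    have h2 : N * (K + Ca * C + 1) ≤ N * (c * N) := mul_le_mul_of_nonneg_left hN2 (by linarith)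
    have h3 : K ≤ N * K := by nlinarith
    rw [hRN]
    nlinarith
  -- the elements g_s
  have hgs : ∀ s : gam G n, ∃ g : gam G n, s ∈ X → (∀ y ∈ X, Dsp X ψ RN (cj (gam G n) (g : G) y)) ∧
      ph ψ g = A • ph ψ s := by
    intro s
    by_cases hs : s ∈ X
    · obtain ⟨g, hg, ⟨k, hk1, hk2⟩, hg2⟩ := hCa s hs N
      refine ⟨⟨g, hg⟩, fun _ => ⟨?_, ?_⟩⟩
      · intro y hy
        have h1 : Dsp X ψ K y := by
          have h2 : Conn X (fun a => ‖ph ψ a‖ ≤ K) 1 (1 * y) := by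
            refine Conn.step ?_ ?_ hy
            · show ‖ph ψ 1‖ ≤ K
              rw [phi_one hφ, norm_zero]; exact hK0
            · show ‖ph ψ (1 * y)‖ ≤ K
              rw [one_mul]; exact hK y hy
          rwa [one_mul] at h2
        refine (Dsp.wl hinv hC0 hC' hk2 h1).mono ?_
        rw [hRN]
        have := mul_le_mul_of_nonneg_right hk1 hC0
        linarith
      · have h1 : ψ ((⟨g, hg⟩ : gam G n)⁻¹ * s ^ N ^ (n + 1)) = 1 := by
          apply hk
          show g⁻¹ * (s : G) ^ N ^ (n + 1) ∈ gam G (n + 1)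
          rw [← QuotientGroup.eq, hg2]; rfl
        rw [map_mul, map_inv, inv_mul_eq_one] at h1
        have h2 : ph ψ ⟨g, hg⟩ = ph ψ (s ^ N ^ (n + 1)) := by unfold ph; rw [h1]
        rw [h2, phi_pow hφ, hA]; push_cast; rfl
    · exact ⟨1, fun h => absurd h hs⟩
  choose gs hgs using hgs
  obtain ⟨D, hD0, hD⟩ := exists_unif hXfin (P := fun x R => Dsp X ψ R (gs x))
    (fun x R R' h1 h2 => h2.mono h1) (fun q _ => Dsp.exists hX hgen _)
  obtain ⟨r, hr⟩ := exists_nat_ge (max 1 ((D + 1) / c))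
  have hr1 : (1 : ℝ) ≤ r := (le_max_left _ _).trans hr
  have hr2 : D + 1 ≤ c * r := by
    have := (le_max_right _ _).trans hr
    rw [div_le_iff₀ hc] at this
    linarith
  refine ⟨r, by exact_mod_cast hr1, ?_⟩
  set Cw : ℝ := r * K + A * K + RN + D with hCw
  refine ⟨(2 * K * Cw + Cw ^ 2 + 1) / 2, ?_⟩
  intro M p s x hp hlarge hs hx hreg
  obtain ⟨g1, g2⟩ := hgs s hs.1
  set g := gs s with hg
  have hDg : Dsp X ψ D g := hD s hs.1
  set L := ‖ph ψ p‖ with hL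
  have hL0 : 0 ≤ L := norm_nonneg _
  have hlarge' : 2 * K * Cw + Cw ^ 2 + 1 ≤ 2 * 1 * L := by linarith
  have hσ : ⟪ph ψ p, ph ψ s⟫_ℝ ≤ -c * L := hs.2
  have hnr : ∀ i : ℕ, i ≤ r → ‖ph ψ (s ^ i)‖ ≤ r * K := by
    intro i hi
    rw [phi_pow hφ, norm_smul, Real.norm_eq_abs, abs_of_nonneg (Nat.cast_nonneg i)]
    exact mul_le_mul (by exact_mod_cast hi) (hK s hs.1) (norm_nonneg _) (by positivity)
  have hin : ∀ w, ⟪ph ψ p, ph ψ w⟫_ℝ ≤ L * ‖ph ψ w‖ := fun w => real_inner_le_norm _ _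
  have move1 : ∀ b, Reg (ph ψ) M b → ‖ph ψ b - ph ψ p‖ ≤ K →
      Conn X (Reg (ph ψ) (M - 1)) (b * s ^ r) (b * s ^ r * g) := by
    intro b hb hbp
    have h1 := hDg.translate (P' := Reg (ph ψ) (M - 1)) (b * s ^ r) (by
      intro w hw
      rw [mul_assoc]
      refine reg_of hφ (p := p) (δ := 1) (C := Cw) (K := K) hb hK0 hbp ?_ ?_ hlarge'
      · rw [hφ]
        refine (norm_add_le _ _).trans ?_
        have := hnr r le_rfl
        have h3 : 0 ≤ A * K := by positivity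
        have hw' : ‖ph ψ w‖ ≤ D := hw
        rw [hCw]; linarith
      · rw [hφ, inner_add_right, phi_pow hφ, inner_smul_right]
        have h2 := hin w
        have hw' : ‖ph ψ w‖ ≤ D := hw
        have h3 : L * ‖ph ψ w‖ ≤ L * D := mul_le_mul_of_nonneg_left hw' hL0
        have h4 : (r : ℝ) * ⟪ph ψ p, ph ψ s⟫_ℝ ≤ r * (-c * L) :=
          mul_le_mul_of_nonneg_left hσ (by linarith)
        have h5 : L * (D + 1) ≤ L * (c * r) := mul_le_mul_of_nonneg_left hr2 hL0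
        show _ ≤ -1 * L
        linarith)
    rwa [mul_one] at h1
  have move2 : ∀ b, Reg (ph ψ) M b → ‖ph ψ b - ph ψ p‖ ≤ K → ∀ i ≤ r, ∀ y ∈ X,
      Conn X (Reg (ph ψ) (M - 1)) (b * s ^ i * g) (b * s ^ i * y * g) := by
    intro b hb hbp i hi y hy
    have h1 := (g1 y hy).translate (P' := Reg (ph ψ) (M - 1)) (b * s ^ i * g) (by
      intro w hw
      have hw' : ‖ph ψ w‖ ≤ RN := hw
      have e : b * s ^ i * g * w = b * (s ^ i * g * w) := by simp only [mul_assoc]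
      rw [e]
      refine reg_of hφ (p := p) (δ := 1) (C := Cw) (K := K) hb hK0 hbp ?_ ?_ hlarge'
      · rw [hφ, hφ, g2]
        refine (norm_add_le _ _).trans ?_
        have h2 := norm_add_le (ph ψ (s ^ i)) (A • ph ψ s)
        have h3 := hnr i hi
        have h4 : ‖A • ph ψ s‖ ≤ A * K := by
          rw [norm_smul, Real.norm_eq_abs, abs_of_nonneg hA0]
          exact mul_le_mul_of_nonneg_left (hK s hs.1) hA0
        rw [hCw]; linarith
      · rw [hφ, hφ, g2, inner_add_right, inner_add_right, phi_pow hφ, inner_smul_right,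
          inner_smul_right]
        have h2 := hin w
        have h3 : L * ‖ph ψ w‖ ≤ L * RN := mul_le_mul_of_nonneg_left hw' hL0
        have h4 : (i : ℝ) * ⟪ph ψ p, ph ψ s⟫_ℝ ≤ 0 := by
          refine mul_nonpos_of_nonneg_of_nonpos (Nat.cast_nonneg i) (hσ.trans ?_)
          nlinarith
        have h5 : A * ⟪ph ψ p, ph ψ s⟫_ℝ ≤ A * (-c * L) := mul_le_mul_of_nonneg_left hσ hA0
        have h6 : L * (RN + 1) ≤ L * (c * A) := mul_le_mul_of_nonneg_left hAR hL0
        show _ ≤ -1 * L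
        linarith)
    have e2 : b * s ^ i * g * cj (gam G n) (g : G) y = b * s ^ i * y * g := by
      have : g * cj (gam G n) (g : G) y = y * g := by
        apply Subtype.ext
        simp only [cj, Subgroup.coe_mul]
        group
      rw [mul_assoc, this]
      simp only [mul_assoc]
    rwa [mul_one, e2] at h1
  have up : ∀ b, Reg (ph ψ) M b → ‖ph ψ b - ph ψ p‖ ≤ K → ∀ i ≤ r,
      Conn X (Reg (ph ψ) (M - 1)) (b * g) (b * s ^ i * g) := by
    intro b hb hbp i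
    induction i with
    | zero => intro _; simpa using Conn.rfl'
    | succ i ih =>
      intro hi
      have h1 := move2 b hb hbp i (by omega) s hs.1
      have e : b * s ^ i * s * g = b * s ^ (i + 1) * g := by rw [pow_succ]; simp only [mul_assoc]
      rw [e] at h1
      exact (ih (by omega)).trans h1
  have hpb : ‖ph ψ p - ph ψ p‖ ≤ K := by simpa using hK0
  have hxb : ‖ph ψ (p * x) - ph ψ p‖ ≤ K := by rw [hφ]; simpa using hK x hx
  have c1 := move1 (p * x) hreg hxb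
  have c2 := up (p * x) hreg hxb r le_rfl
  have c3 := move2 (p * x) hreg hxb 0 (Nat.zero_le _) x⁻¹ (hX x hx)
  have c4 := up p hp.1 hpb r le_rfl
  have c5 := move1 p hp.1 hpb
  have e3 : p * x * s ^ 0 * g = p * x * g := by simp
  have e4 : p * x * s ^ 0 * x⁻¹ * g = p * g := by simp
  rw [e3, e4] at c3
  exact (((c1.trans (c2.symm hX)).trans c3).trans c4).trans (c5.symm hX)

end main

end Pool.Agent.TH555.FG
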