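import Pool.Agent.TH555.FG.GStep
import Pool.Agent.TH555.FG.WPush

/-! Assembly: all terms of the lower central series are f.g. (helper555). -/

namespace Pool.Agent.TH555.FG

open Subgroup
open Pool.Agent.H785R3.GrowthA
open scoped Pointwise commutatorElement

universe u v

lemma fg_map {H : Type u} {G' : Type v} [Group H] [Group G'] (f : H →* G') {P : Subgroup H}
    (h : P.FG) : (P.map f).FG := by
  classical
  obtain ⟨T, hT⟩ := h
  exact ⟨T.image f, by rw [Finset.coe_image, ← MonoidHom.map_closure, hT]⟩

lemma free_map (A : Type u) [CommGroup A] [Group.FG A] :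
    ∃ (m : ℕ) (f : A →* Multiplicative (Fin m → ℤ)), Function.Surjective f ∧ Finite f.ker := by
  classical
  obtain ⟨ι, j, _, _, p, hp, e, ⟨E⟩⟩ := CommGroup.equiv_free_prod_prod_multiplicative_zmod A
  let σ := Fintype.equivFin j
  let g : (j → Multiplicative ℤ) ≃* Multiplicative (Fin (Fintype.card j) → ℤ) :=
    { toFun := fun v => Multiplicative.ofAdd (fun i => Multiplicative.toAdd (v (σ.symm i)))
      invFun := fun w => fun a => Multiplicative.ofAdd ((Multiplicative.toAdd w) (σ a))
      left_inv := by intro v; ext a; simp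
      right_inv := by intro w; simp
      map_mul' := by intro a b; rfl }
  refine ⟨Fintype.card j, (g.toMonoidHom.comp (MonoidHom.fst _ _)).comp E.toMonoidHom, ?_, ?_⟩
  · intro w
    refine ⟨E.symm (g.symm w, 1), ?_⟩
    simp
  · have hne : ∀ i, NeZero (p i ^ e i) := fun i => ⟨pow_ne_zero _ (hp i).ne_zero⟩
    have : ∀ i, Finite (Multiplicative (ZMod (p i ^ e i))) := fun i =>
      Finite.of_equiv (ZMod (p i ^ e i)) Multiplicative.ofAdd
    refine Finite.of_injective (fun a : ((g.toMonoidHom.comp (MonoidHom.fst _ _)).comp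
      E.toMonoidHom).ker => (E (a : A)).2) ?_
    rintro ⟨a, ha⟩ ⟨b, hb⟩ hab
    have ha' : (E a).1 = 1 := by
      have h1 : g (E a).1 = 1 := ha
      exact (map_eq_one_iff g g.injective).1 h1
    have hb' : (E b).1 = 1 := by
      have h1 : g (E b).1 = 1 := hb
      exact (map_eq_one_iff g g.injective).1 h1
    apply Subtype.ext
    apply E.injective
    exact Prod.ext (ha'.trans hb'.symm) hab

lemma reduce {H : Type u} [Group H] [Group.FG H] (N : Subgroup H) [hN : N.Normal]
    (hcomm : commutator H ≤ N)
    (hker : ∀ (m : ℕ) (ψ : H →* Multiplicative (Fin m → ℤ)), Function.Surjective ψ → N ≤ ψ.ker →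
      ψ.ker.FG) : N.FG := by
  classical
  letI : CommGroup (H ⧸ N) :=
    { (inferInstance : Group (H ⧸ N)) with
      mul_comm := by
        intro a b
        obtain ⟨a, rfl⟩ := QuotientGroup.mk'_surjective N a
        obtain ⟨b, rfl⟩ := QuotientGroup.mk'_surjective N b
        rw [← map_mul, ← map_mul]
        apply QuotientGroup.eq.2
        have h1 : (a * b)⁻¹ * (b * a) = ⁅b⁻¹, a⁻¹⁆ := by rw [commutatorElement_def]; group
        rw [h1]
        exact hcomm (commutator_mem_commutator (mem_top _) (mem_top _)) }
  haveI : Group.FG (H ⧸ N) := inferInstance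
  obtain ⟨m, f, hf, hfk⟩ := free_map (H ⧸ N)
  let π : H →* H ⧸ N := QuotientGroup.mk' N
  have hπ : Function.Surjective π := QuotientGroup.mk'_surjective N
  have hπk : π.ker = N := QuotientGroup.ker_mk' N
  let ψ : H →* Multiplicative (Fin m → ℤ) := f.comp π
  have hle : N ≤ ψ.ker := by
    intro x hx
    rw [MonoidHom.mem_ker]
    show f (π x) = 1
    have : π x = 1 := by rw [← MonoidHom.mem_ker, hπk]; exact hx
    rw [this, map_one]
  have h1 := hker m ψ (hf.comp hπ) hle
  haveI : Group.FG ψ.ker := (Group.fg_iff_subgroup_fg _).2 h1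
  let g : ψ.ker →* f.ker :=
    { toFun := fun x => ⟨π x, x.2⟩
      map_one' := by apply Subtype.ext; simp
      map_mul' := by intro a b; apply Subtype.ext; simp }
  have hgk : g.ker = N.subgroupOf ψ.ker := by
    ext x
    rw [MonoidHom.mem_ker, mem_subgroupOf]
    have hx : (x : H) ∈ N ↔ π x = 1 := by
      constructor
      · intro h
        have : (x : H) ∈ π.ker := by rw [hπk]; exact h
        exact this
      · intro h
        have : (x : H) ∈ π.ker := h
        rwa [hπk] at this
    rw [hx]
    constructor
    · intro h; exact congrArg Subtype.val h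
    · intro h; exact Subtype.ext h
  haveI : g.ker.FiniteIndex := inferInstance
  haveI : Group.FG g.ker := inferInstance
  have h2 : g.ker.FG := (Group.fg_iff_subgroup_fg _).1 inferInstance
  rw [hgk] at h2
  have h3 := fg_map ψ.ker.subtype h2
  rwa [subgroupOf_map_subtype, inf_eq_left.2 hle] at h3

variable {G : Type u} [Group G] {S : Set G}

/-- without free pairs in `S ^ 2`, `S ^ 3`, every term of the lower central series is f.g. -/
theorem gam_fg (hfin : S.Finite) (hS : closure S = ⊤) (hNF : NoFree S 3) (n : ℕ) : (gam G n).FG := by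
  haveI hG : Group.FG G := ⟨(Subgroup.fg_iff _).2 ⟨S, hS, hfin⟩⟩
  have hone : (gam G 1).FG := by
    haveI : (gam G 1).Normal := inferInstance
    refine reduce (gam G 1) ?_ ?_
    · show commutator G ≤ (⊤ : Subgroup G).lowerCentralSeries 1
      rw [Subgroup.lowerCentralSeries_one]
    · intro m ψ hψ _
      exact ker_fg_of_noFree hfin hS hNF ψ hψ
  induction n with
  | zero => exact hG.out
  | succ n ih =>
    rcases Nat.eq_zero_or_pos n with h0 | h0
    · subst h0; exact hone
    · haveI : Group.FG (gam G n) := (Group.fg_iff_subgroup_fg _).2 ih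
      have h1 : ((gam G (n + 1)).subgroupOf (gam G n)).FG := by
        refine reduce _ ?_ ?_
        · rw [_root_.commutator_def, commutator_le]
          rintro a _ b _
          rw [mem_subgroupOf]
          show ⁅(a : G), (b : G)⁆ ∈ _
          exact gam_comm a.2 b
        · intro m ψ hψ hle
          exact ker_fg_gam hfin hS h0 ih ψ hψ (fun h hh => hle (by rwa [mem_subgroupOf]))
      have h3 := fg_map (gam G n).subtype h1
      rwa [subgroupOf_map_subtype, inf_eq_left.2 (gam_succ_le n)] at h3

end Pool.Agent.TH555.FG
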