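import Mathlib

/-! Edge paths in Cayley graphs that stay in a region (helper555). -/

namespace Pool.Agent.TH555.FG

open Subgroup

universe u v

section basic

variable {H : Type u} [Group H]

/-- `a` and `b` are joined by an edge path with labels in `X` all of whose vertices satisfy `P`
(or `a = b`). -/
def Conn (X : Set H) (P : H → Prop) : H → H → Prop :=
  Relation.ReflTransGen (fun a b => P a ∧ P b ∧ a⁻¹ * b ∈ X)

variable {X : Set H} {P P' : H → Prop}

lemma Conn.rfl' {a : H} : Conn X P a a := Relation.ReflTransGen.refl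

lemma Conn.trans {a b c : H} (h1 : Conn X P a b) (h2 : Conn X P b c) : Conn X P a c :=
  Relation.ReflTransGen.trans h1 h2

lemma Conn.step {a x : H} (ha : P a) (hb : P (a * x)) (hx : x ∈ X) : Conn X P a (a * x) :=
  Relation.ReflTransGen.single ⟨ha, hb, by simpa using hx⟩

lemma Conn.symm (hX : ∀ x ∈ X, x⁻¹ ∈ X) {a b : H} (h : Conn X P a b) : Conn X P b a := by
  induction h with
  | refl => exact Conn.rfl'
  | tail _ h2 ih =>
    obtain ⟨h3, h4, h5⟩ := h2
    refine Conn.trans (Relation.ReflTransGen.single ⟨h4, h3, ?_⟩) ih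
    have := hX _ h5
    simpa using this

lemma Conn.translate {a b : H} (κ : H) (hP : ∀ w, P w → P' (κ * w)) (h : Conn X P a b) :
    Conn X P' (κ * a) (κ * b) := by
  induction h with
  | refl => exact Conn.rfl'
  | tail _ h2 ih =>
    obtain ⟨h3, h4, h5⟩ := h2
    refine Conn.trans ih (Relation.ReflTransGen.single ⟨hP _ h3, hP _ h4, ?_⟩)
    have e : ∀ b c : H, (κ * b)⁻¹ * (κ * c) = b⁻¹ * c := by intro b c; group
    rw [e]; exact h5

lemma Conn.mono {a b : H} (hP : ∀ w, P w → P' w) (h : Conn X P a b) : Conn X P' a b := by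
  have := Conn.translate (P' := P') 1 (by intro w hw; rw [one_mul]; exact hP w hw) h
  simpa using this

lemma Conn.pow {q a : H} {n : ℕ} (h : ∀ i < n, Conn X P (q * a ^ i) (q * a ^ (i + 1))) :
    Conn X P q (q * a ^ n) := by
  induction n with
  | zero => simpa using Conn.rfl'
  | succ n ih =>
    exact (ih fun i hi => h i (by omega)).trans (h n (by omega))

end basic

section phi

variable {H : Type u} [Group H] {E : Type v} [NormedAddCommGroup E] [InnerProductSpace ℝ E]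
  {φ : H → E}

/-- the ball of squared radius `M` -/
def Reg (φ : H → E) (M : ℝ) (g : H) : Prop := ‖φ g‖ ^ 2 ≤ M

lemma phi_one (hφ : ∀ a b, φ (a * b) = φ a + φ b) : φ 1 = 0 := by
  have := hφ 1 1
  simpa using this

lemma phi_inv (hφ : ∀ a b, φ (a * b) = φ a + φ b) (a : H) : φ a⁻¹ = - φ a := by
  have := hφ a a⁻¹
  rw [mul_inv_cancel, phi_one hφ] at this
  exact (neg_eq_of_add_eq_zero_right this.symm).symm

lemma phi_pow (hφ : ∀ a b, φ (a * b) = φ a + φ b) (a : H) (n : ℕ) : φ (a ^ n) = (n : ℝ) • φ a := by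
  induction n with
  | zero => simp [phi_one hφ]
  | succ n ih => rw [pow_succ, hφ, ih]; push_cast; rw [add_smul, one_smul]

lemma reg_mono {M M' : ℝ} (h : M ≤ M') {g : H} (hg : Reg φ M g) : Reg φ M' g := le_trans hg h

lemma reg_translate (hφ : ∀ a b, φ (a * b) = φ a + φ b) {M : ℝ} {κ : H} (hκ : φ κ = 0) (w : H)
    (hw : Reg φ M w) : Reg φ M (κ * w) := by
  unfold Reg at *
  rw [hφ, hκ, zero_add]; exact hw

open scoped InnerProductSpace in
/-- the basic inequality -/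
lemma reg_of (hφ : ∀ a b, φ (a * b) = φ a + φ b) {M δ C K : ℝ} {p b w : H} (hb : Reg φ M b)
    (hK : 0 ≤ K)
    (hbp : ‖φ b - φ p‖ ≤ K) (hw : ‖φ w‖ ≤ C) (hin : ⟪φ p, φ w⟫_ℝ ≤ -δ * ‖φ p‖)
    (hlarge : 2 * K * C + C ^ 2 + 1 ≤ 2 * δ * ‖φ p‖) : Reg φ (M - 1) (b * w) := by
  unfold Reg at *
  rw [hφ, norm_add_sq_real]
  have h1 : ⟪φ b, φ w⟫_ℝ = ⟪φ p, φ w⟫_ℝ + ⟪φ b - φ p, φ w⟫_ℝ := by
    rw [← inner_add_left]; congr 1; abel
  have h2 : ⟪φ b - φ p, φ w⟫_ℝ ≤ K * C :=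
    (real_inner_le_norm _ _).trans (mul_le_mul hbp hw (norm_nonneg _) hK)
  have h3 : ‖φ w‖ ^ 2 ≤ C ^ 2 := pow_le_pow_left₀ (norm_nonneg _) hw 2
  rw [h1]
  nlinarith

/-- conjugates -/
lemma conn_conj {X : Set H} (hX : ∀ x ∈ X, x⁻¹ ∈ X) (hφ : ∀ a b, φ (a * b) = φ a + φ b) {M : ℝ}
    {q g d : H} (hd : φ d = 0) (h1 : Conn X (Reg φ M) q (q * g))
    (h2 : Conn X (Reg φ M) (q * g) (q * g * d)) : Conn X (Reg φ M) q (q * (g * d * g⁻¹)) := by
  have hκ : φ ((q * g) * d * (q * g)⁻¹) = 0 := by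
    rw [hφ, hφ, phi_inv hφ, hd]; abel
  have h3 := (h1.symm hX).translate (P' := Reg φ M) ((q * g) * d * (q * g)⁻¹)
    (fun w hw => reg_translate hφ hκ w hw)
  have e1 : (q * g) * d * (q * g)⁻¹ * (q * g) = q * g * d := by group
  have e2 : (q * g) * d * (q * g)⁻¹ * q = q * (g * d * g⁻¹) := by group
  rw [e1, e2] at h3
  exact (h1.trans h2).trans h3

lemma conn_closure {X : Set H} (hX : ∀ x ∈ X, x⁻¹ ∈ X) (hφ : ∀ a b, φ (a * b) = φ a + φ b) {M : ℝ}
    {q : H} {T : Set H} (hT : ∀ x ∈ T, φ x = 0 ∧ Conn X (Reg φ M) q (q * x)) :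
    ∀ x ∈ closure T, φ x = 0 ∧ Conn X (Reg φ M) q (q * x) := by
  intro x hx
  induction hx using Subgroup.closure_induction with
  | mem x hx => exact hT x hx
  | one => exact ⟨phi_one hφ, by simpa using Conn.rfl'⟩
  | mul x y _ _ hx hy =>
    refine ⟨by rw [hφ, hx.1, hy.1, add_zero], hx.2.trans ?_⟩
    have hκ : φ (q * x * q⁻¹) = 0 := by rw [hφ, hφ, phi_inv hφ, hx.1]; abel
    have h3 := hy.2.translate (P' := Reg φ M) (q * x * q⁻¹) (fun w hw => reg_translate hφ hκ w hw)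
    have e1 : q * x * q⁻¹ * q = q * x := by group
    have e2 : q * x * q⁻¹ * (q * y) = q * (x * y) := by group
    rwa [e1, e2] at h3
  | inv x _ hx =>
    refine ⟨by rw [phi_inv hφ, hx.1, neg_zero], ?_⟩
    have hκ : φ (q * x⁻¹ * q⁻¹) = 0 := by rw [hφ, hφ, phi_inv hφ, phi_inv hφ, hx.1]; abel
    have h3 := (hx.2.symm hX).translate (P' := Reg φ M) (q * x⁻¹ * q⁻¹)
      (fun w hw => reg_translate hφ hκ w hw)
    have e1 : q * x⁻¹ * q⁻¹ * (q * x) = q := by group
    have e2 : q * x⁻¹ * q⁻¹ * q = q * x⁻¹ := by group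
    rwa [e1, e2] at h3

end phi

end Pool.Agent.TH555.FG
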