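import Pool.Agent.TH555.FG.Conn

/-! Pushing paths towards the origin (helper555). -/

namespace Pool.Agent.TH555.FG

open Subgroup
open scoped InnerProductSpace

universe u v

section desc

variable {H : Type u} [Group H] {E : Type v} [NormedAddCommGroup E] [InnerProductSpace ℝ E]
  {φ : H → E} {X : Set H}

/-- the letter `s` points inward at `p`, with margin `c` -/
def Good (φ : H → E) (X : Set H) (c : ℝ) (p s : H) : Prop := s ∈ X ∧ ⟪φ p, φ s⟫_ℝ ≤ -c * ‖φ p‖

/-- `p` is in the region for `M` but not in the region for `M - 1` -/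
def Top (φ : H → E) (M : ℝ) (p : H) : Prop := Reg φ M p ∧ ¬ Reg φ (M - 1) p

lemma Good.half {c : ℝ} (hc : 0 < c) {p s : H} (h : Good φ X c p s) : Good φ X (c / 2) p s := by
  refine ⟨h.1, h.2.trans ?_⟩
  have := norm_nonneg (φ p)
  nlinarith

theorem descend (hX : ∀ x ∈ X, x⁻¹ ∈ X) {M c : ℝ} (hc : 0 < c) {r : ℕ}
    (h1 : ∀ p, Top φ M p → ∃ s, Good φ X c p s)
    (h2 : ∀ p s x, Top φ M p → Good φ X (c / 2) p s → x ∈ X → Reg φ M (p * x) →
      Conn X (Reg φ (M - 1)) (p * x * s ^ r) (p * s ^ r))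
    (h3 : ∀ p s x, Top φ M p → Good φ X (c / 2) p s → x ∈ X → Reg φ (M - 1) (p * x) →
      Conn X (Reg φ (M - 1)) (p * x) (p * x * s ^ r))
    (h4 : ∀ p s x, Top φ M p → Top φ M (p * x) → x ∈ X → Good φ X c (p * x) s →
      Good φ X (c / 2) p s)
    (h5 : ∀ p s, Top φ M p → Good φ X (c / 2) p s →
      Reg φ (M - 1) (p * s) ∧ Conn X (Reg φ (M - 1)) (p * s) (p * s ^ r))
    {g h : H} (hg : Reg φ (M - 1) g) (hgh : Conn X (Reg φ M) g h) :
    (Reg φ (M - 1) h → Conn X (Reg φ (M - 1)) g h) ∧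
      (Top φ M h → ∀ s, Good φ X c h s → Conn X (Reg φ (M - 1)) g (h * s ^ r)) := by
  induction hgh with
  | refl => exact ⟨fun _ => Conn.rfl', fun h => absurd hg h.2⟩
  | @tail h h' _ hst ih =>
    obtain ⟨hh, hh', hx⟩ := hst
    obtain ⟨x, rfl⟩ : ∃ x, h' = h * x := ⟨h⁻¹ * h', by group⟩
    have hx' : x ∈ X := by simpa using hx
    have hxi := hX x hx'
    have e0 : h * x * x⁻¹ = h := by group
    constructor
    · intro hB
      by_cases hA : Reg φ (M - 1) h
      · exact (ih.1 hA).trans (Conn.step hA hB hx')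
      · have hT : Top φ M h := ⟨hh, hA⟩
        obtain ⟨s, hs⟩ := h1 h hT
        have i1 := ih.2 hT s hs
        have i2 := h2 h s x hT (hs.half hc) hx' hh'
        have i3 := h3 h s x hT (hs.half hc) hx' hB
        exact (i1.trans (i2.symm hX)).trans (i3.symm hX)
    · intro hT' s' hs'
      by_cases hA : Reg φ (M - 1) h
      · have i2 := h2 (h * x) s' x⁻¹ hT' (hs'.half hc) hxi (by rw [e0]; exact hh)
        have i3 := h3 (h * x) s' x⁻¹ hT' (hs'.half hc) hxi (by rw [e0]; exact hA)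
        rw [e0] at i2 i3
        exact ((ih.1 hA).trans i3).trans i2
      · have hT : Top φ M h := ⟨hh, hA⟩
        obtain ⟨s, hs⟩ := h1 h hT
        have i1 := ih.2 hT s hs
        have hs2 := h4 h s' x hT hT' hx' hs'
        obtain ⟨j1, j2⟩ := h5 h s hT (hs.half hc)
        have i3 := h3 h s' s hT hs2 hs.1 j1
        have i4 := h2 h s' s hT hs2 hs.1 (reg_mono (by linarith) j1)
        have i5 := h2 (h * x) s' x⁻¹ hT' (hs'.half hc) hxi (by rw [e0]; exact hh)
        rw [e0] at i5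
        exact (((i1.trans (j2.symm hX)).trans i3).trans i4).trans i5

end desc

section ker

variable {H : Type u} [Group H] {m : ℕ}

/-- the real vector attached to a homomorphism to `ℤ ^ m` -/
noncomputable def ph (ψ : H →* Multiplicative (Fin m → ℤ)) (g : H) : EuclideanSpace ℝ (Fin m) :=
  WithLp.toLp 2 (fun i => ((Multiplicative.toAdd (ψ g)) i : ℝ))

variable (ψ : H →* Multiplicative (Fin m → ℤ))

lemma ph_apply (g : H) (i : Fin m) : ph ψ g i = ((Multiplicative.toAdd (ψ g)) i : ℝ) := rfl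

lemma ph_mul (a b : H) : ph ψ (a * b) = ph ψ a + ph ψ b := by
  ext i
  simp [ph_apply]

lemma ph_eq_zero_iff {g : H} : ph ψ g = 0 ↔ g ∈ ψ.ker := by
  rw [MonoidHom.mem_ker]
  constructor
  · intro h
    apply Multiplicative.toAdd.injective
    ext i
    have := congrArg (fun v : EuclideanSpace ℝ (Fin m) => v i) h
    simp only [ph_apply, PiLp.zero_apply, Int.cast_eq_zero] at this
    simpa using this
  · intro h
    ext i
    rw [ph_apply, h]
    simp

lemma ph_surj (hψ : Function.Surjective ψ) (i : Fin m) : ∃ g, ph ψ g = EuclideanSpace.single i 1 := by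
  obtain ⟨g, hg⟩ := hψ (Multiplicative.ofAdd (Pi.single i 1))
  refine ⟨g, ?_⟩
  ext j
  rw [ph_apply, hg]
  simp only [toAdd_ofAdd, PiLp.single_apply, Pi.single_apply]
  split_ifs <;> simp

/-- there is always an inward letter -/
lemma exists_inward (hψ : Function.Surjective ψ) {X : Set H} (hXfin : X.Finite)
    (hX : ∀ x ∈ X, x⁻¹ ∈ X) (hgen : closure X = ⊤) :
    ∃ c : ℝ, 0 < c ∧ ∀ v : EuclideanSpace ℝ (Fin m), v ≠ 0 →
      ∃ s ∈ X, ⟪v, ph ψ s⟫_ℝ ≤ -c * ‖v‖ := by
  classical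
  have : Fintype X := hXfin.fintype
  let T : EuclideanSpace ℝ (Fin m) →ₗ[ℝ] (X → ℝ) :=
    { toFun := fun v s => ⟪v, ph ψ s⟫_ℝ
      map_add' := by intro a b; ext s; simp [inner_add_left]
      map_smul' := by intro a b; ext s; simp [inner_smul_left] }
  have hT : T.ker = ⊥ := by
    rw [LinearMap.ker_eq_bot']
    intro v hv
    have h1 : ∀ s ∈ X, ⟪v, ph ψ s⟫_ℝ = 0 := fun s hs => congrFun hv ⟨s, hs⟩
    have h2 : ∀ g ∈ closure X, ⟪v, ph ψ g⟫_ℝ = 0 := by
      intro g hg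
      induction hg using Subgroup.closure_induction with
      | mem x hx => exact h1 x hx
      | one => rw [phi_one (ph_mul ψ), inner_zero_right]
      | mul x y _ _ hx hy => rw [ph_mul, inner_add_right, hx, hy, add_zero]
      | inv x _ hx => rw [phi_inv (ph_mul ψ), inner_neg_right, hx, neg_zero]
    rw [hgen] at h2
    ext i
    obtain ⟨g, hg⟩ := ph_surj ψ hψ i
    have := h2 g (mem_top _)
    rw [hg, EuclideanSpace.inner_single_right] at this
    simpa using this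
  obtain ⟨K, hK, hanti⟩ := T.exists_antilipschitzWith hT
  have hK' : (0 : ℝ) < K := hK
  refine ⟨1 / (2 * K), by positivity, ?_⟩
  intro v hv
  have hv' : 0 < ‖v‖ := norm_pos_iff.2 hv
  have h1 : ‖v‖ ≤ K * ‖T v‖ := by
    have := hanti.le_mul_dist v 0
    simpa [dist_eq_norm] using this
  by_contra hcon
  push Not at hcon
  have h2 : ‖T v‖ ≤ 1 / (2 * K) * ‖v‖ := by
    rw [pi_norm_le_iff_of_nonneg (by positivity)]
    rintro ⟨s, hs⟩
    show ‖⟪v, ph ψ s⟫_ℝ‖ ≤ _
    rw [Real.norm_eq_abs, abs_le]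
    constructor
    · have := hcon s hs
      linarith
    · have := hcon s⁻¹ (hX s hs)
      rw [phi_inv (ph_mul ψ), inner_neg_right] at this
      linarith
  have h3 : K * ‖T v‖ ≤ ‖v‖ / 2 := by
    calc K * ‖T v‖ ≤ K * (1 / (2 * K) * ‖v‖) := by gcongr
      _ = ‖v‖ / 2 := by field_simp
  linarith

/-- every path is in some region -/
lemma exists_reg {X : Set H} (hX : ∀ x ∈ X, x⁻¹ ∈ X) (hgen : closure X = ⊤) (M0 : ℝ) (g : H) :
    ∃ n : ℕ, Conn X (Reg (ph ψ) (M0 + n)) 1 g := by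
  have hg : g ∈ closure X := by rw [hgen]; exact mem_top _
  induction hg using Subgroup.closure_induction_right with
  | one => exact ⟨0, Conn.rfl'⟩
  | mul_right a _ x hx ih =>
    obtain ⟨n, hn⟩ := ih
    obtain ⟨k, hk⟩ := exists_nat_ge (max (‖ph ψ a‖ ^ 2 - M0) (‖ph ψ (a * x)‖ ^ 2 - M0))
    refine ⟨n + k, ?_⟩
    have h1 : ‖ph ψ a‖ ^ 2 ≤ M0 + ((n + k : ℕ) : ℝ) := by
      have := (le_max_left _ _).trans hk
      push_cast; have := Nat.cast_nonneg (α := ℝ) n; linarith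
    have h2 : ‖ph ψ (a * x)‖ ^ 2 ≤ M0 + ((n + k : ℕ) : ℝ) := by
      have := (le_max_right _ _).trans hk
      push_cast; have := Nat.cast_nonneg (α := ℝ) n; linarith
    refine (hn.mono fun w hw => reg_mono ?_ hw).trans (Conn.step h1 h2 hx)
    push_cast; have := Nat.cast_nonneg (α := ℝ) k; linarith
  | mul_inv_cancel a _ x hx ih =>
    obtain ⟨n, hn⟩ := ih
    obtain ⟨k, hk⟩ := exists_nat_ge (max (‖ph ψ a‖ ^ 2 - M0) (‖ph ψ (a * x⁻¹)‖ ^ 2 - M0))
    refine ⟨n + k, ?_⟩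
    have h1 : ‖ph ψ a‖ ^ 2 ≤ M0 + ((n + k : ℕ) : ℝ) := by
      have := (le_max_left _ _).trans hk
      push_cast; have := Nat.cast_nonneg (α := ℝ) n; linarith
    have h2 : ‖ph ψ (a * x⁻¹)‖ ^ 2 ≤ M0 + ((n + k : ℕ) : ℝ) := by
      have := (le_max_right _ _).trans hk
      push_cast; have := Nat.cast_nonneg (α := ℝ) n; linarith
    refine (hn.mono fun w hw => reg_mono ?_ hw).trans (Conn.step h1 h2 (hX x hx))
    push_cast; have := Nat.cast_nonneg (α := ℝ) k; linarith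

/-- if all elements of the kernel are joined to `1` in one region, the kernel is f.g. -/
lemma ker_fg_of_conn {X : Set H} (hXfin : X.Finite) {M0 : ℝ}
    (h : ∀ g ∈ ψ.ker, Conn X (Reg (ph ψ) M0) 1 g) : ψ.ker.FG := by
  classical
  have hR : ∀ u : Multiplicative (Fin m → ℤ), ∃ g : H, (∃ a, ψ a = u) → (ψ g = u ∧ (u = 1 → g = 1)) := by
    intro u
    by_cases h1 : ∃ a, ψ a = u
    · obtain ⟨a, ha⟩ := h1
      by_cases h2 : u = 1
      · exact ⟨1, fun _ => ⟨by rw [map_one, h2], fun _ => rfl⟩⟩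
      · exact ⟨a, fun _ => ⟨ha, fun h3 => absurd h3 h2⟩⟩
    · exact ⟨1, fun h3 => absurd h3 h1⟩
  choose R hR using hR
  have hR1 : R 1 = 1 := (hR 1 ⟨1, map_one _⟩).2 rfl
  have hR2 : ∀ a, ψ (R (ψ a)) = ψ a := fun a => (hR _ ⟨a, rfl⟩).1
  let U : Set (Multiplicative (Fin m → ℤ)) :=
    {u | ∑ i, (((Multiplicative.toAdd u) i : ℤ) : ℝ) ^ 2 ≤ M0}
  have hUfin : U.Finite := by
    have hsub : (Multiplicative.toAdd '' U) ⊆
        Set.Icc (fun _ : Fin m => -(⌈|M0|⌉ + 1)) (fun _ : Fin m => (⌈|M0|⌉ + 1)) := by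
      rintro _ ⟨u, hu, rfl⟩
      have hu' : ∀ i, (((Multiplicative.toAdd u) i : ℤ) : ℝ) ^ 2 ≤ |M0| := by
        intro i
        refine le_trans ?_ ((show _ ≤ M0 from hu).trans (le_abs_self _))
        exact Finset.single_le_sum (f := fun i => (((Multiplicative.toAdd u) i : ℤ) : ℝ) ^ 2)
          (fun j _ => sq_nonneg _) (Finset.mem_univ i)
      have key : ∀ i, |(Multiplicative.toAdd u) i| ≤ ⌈|M0|⌉ + 1 := by
        intro i
        have h1 := hu' i
        have h2 : |M0| ≤ (⌈|M0|⌉ : ℝ) := Int.le_ceil _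
        have h3 : ((Multiplicative.toAdd u) i) ^ 2 ≤ ⌈|M0|⌉ := by exact_mod_cast h1.trans h2
        have h4 : |(Multiplicative.toAdd u) i| ≤ ((Multiplicative.toAdd u) i) ^ 2 := by
          rcases eq_or_ne ((Multiplicative.toAdd u) i) 0 with h0 | h0
          · simp [h0]
          · have : 1 ≤ |(Multiplicative.toAdd u) i| := Int.one_le_abs h0
            have e := sq_abs ((Multiplicative.toAdd u) i)
            nlinarith
        linarith
      constructor
      · intro i; exact (abs_le.1 (key i)).1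
      · intro i; exact (abs_le.1 (key i)).2
    exact Set.Finite.of_finite_image ((Set.finite_Icc _ _).subset hsub)
      Multiplicative.toAdd.injective.injOn
  let F : Set H := (fun p : Multiplicative (Fin m → ℤ) × H => R p.1 * p.2 * (R (p.1 * ψ p.2))⁻¹) ''
    (U ×ˢ X) ∩ (ψ.ker : Set H)
  have hF : F.Finite := ((hUfin.prod hXfin).image _).inter_of_left _
  rw [Subgroup.fg_iff]
  refine ⟨F, ?_, hF⟩
  apply le_antisymm
  · rw [closure_le]; exact fun x hx => hx.2
  · intro g hg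
    have key : ∀ a, Conn X (Reg (ph ψ) M0) 1 a → a * (R (ψ a))⁻¹ ∈ closure F := by
      intro a ha
      induction ha with
      | refl => rw [map_one, hR1]; simp
      | @tail b c _ hst ih =>
        obtain ⟨hb, _, hx⟩ := hst
        obtain ⟨x, rfl⟩ : ∃ x, c = b * x := ⟨b⁻¹ * c, by group⟩
        have hx' : x ∈ X := by simpa using hx
        have e : b * x * (R (ψ (b * x)))⁻¹ =
            (b * (R (ψ b))⁻¹) * (R (ψ b) * x * (R (ψ b * ψ x))⁻¹) := by
          rw [map_mul]; group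
        rw [e]
        refine mul_mem ih (subset_closure ⟨⟨(ψ b, x), ⟨?_, hx'⟩, rfl⟩, ?_⟩)
        · show ∑ i, (((Multiplicative.toAdd (ψ b)) i : ℤ) : ℝ) ^ 2 ≤ M0
          have h1 : ‖ph ψ b‖ ^ 2 ≤ M0 := hb
          rw [EuclideanSpace.norm_sq_eq] at h1
          refine le_trans (le_of_eq ?_) h1
          refine Finset.sum_congr rfl fun i _ => ?_
          rw [ph_apply, Real.norm_eq_abs, sq_abs]
        · show R (ψ b) * x * (R (ψ b * ψ x))⁻¹ ∈ ψ.ker
          rw [MonoidHom.mem_ker, map_mul, map_mul, map_inv, hR2, ← map_mul, hR2, mul_inv_cancel]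
    have h1 := key g (h g hg)
    rw [(MonoidHom.mem_ker).1 hg, hR1] at h1
    simpa using h1

/-- the main criterion -/
theorem ker_fg_of_push (hψ : Function.Surjective ψ) {X : Set H} (hXfin : X.Finite)
    (hX : ∀ x ∈ X, x⁻¹ ∈ X) (hgen : closure X = ⊤)
    (push : ∀ c : ℝ, 0 < c → ∃ r : ℕ, 1 ≤ r ∧ ∃ B : ℝ, ∀ (M : ℝ) (p s x : H), Top (ph ψ) M p →
      B ≤ ‖ph ψ p‖ → Good (ph ψ) X c p s → x ∈ X → Reg (ph ψ) M (p * x) →
      Conn X (Reg (ph ψ) (M - 1)) (p * x * s ^ r) (p * s ^ r)) : ψ.ker.FG := by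
  classical
  obtain ⟨c, hc, hin⟩ := exists_inward ψ hψ hXfin hX hgen
  obtain ⟨K, hK0, hK⟩ : ∃ K : ℝ, 0 ≤ K ∧ ∀ x ∈ X, ‖ph ψ x‖ ≤ K := by
    obtain ⟨K, hK⟩ := (hXfin.image (fun x => ‖ph ψ x‖)).bddAbove
    exact ⟨max K 0, le_max_right _ _, fun x hx => (hK ⟨x, hx, rfl⟩).trans (le_max_left _ _)⟩
  obtain ⟨r, hr, B, hpush⟩ := push (c / 2) (by positivity)
  have hφ := ph_mul ψ
  set C : ℝ := r * K with hCdef
  have hC0 : 0 ≤ C := by positivity
  obtain ⟨B', hB'⟩ : ∃ B' : ℝ, B ≤ B' ∧ 1 ≤ B' ∧ 2 * K * C + C ^ 2 + 1 ≤ 2 * (c / 2) * B' ∧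
      c * K + K ^ 2 ≤ (c / 2) * B' := by
    refine ⟨max (max B 1) (max ((2 * K * C + C ^ 2 + 1) / (2 * (c / 2)))
      ((c * K + K ^ 2) / (c / 2))), ?_, ?_, ?_, ?_⟩
    · exact (le_max_left _ _).trans (le_max_left _ _)
    · exact (le_max_right _ _).trans (le_max_left _ _)
    · rw [← div_le_iff₀' (by positivity)]
      exact (le_max_left _ _).trans (le_max_right _ _)
    · rw [← div_le_iff₀' (by positivity)]
      exact (le_max_right _ _).trans (le_max_right _ _)
  obtain ⟨hB1, hB2, hB3, hB4⟩ := hB'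
  have hpowin : ∀ (p s : H) (i : ℕ), 1 ≤ i → Good (ph ψ) X (c / 2) p s →
      ⟪ph ψ p, ph ψ (s ^ i)⟫_ℝ ≤ -(c / 2) * ‖ph ψ p‖ := by
    intro p s i hi hs
    rw [phi_pow hφ, inner_smul_right]
    have h1 := hs.2
    have h2 : (1 : ℝ) ≤ i := by exact_mod_cast hi
    have h3 : ⟪ph ψ p, ph ψ s⟫_ℝ ≤ 0 := h1.trans (by have := norm_nonneg (ph ψ p); nlinarith)
    nlinarith
  have hpown : ∀ (s : H) (i : ℕ), i ≤ r → s ∈ X → ‖ph ψ (s ^ i)‖ ≤ C := by
    intro s i hi hs
    rw [phi_pow hφ, norm_smul, Real.norm_eq_abs, abs_of_nonneg (Nat.cast_nonneg i)]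
    exact mul_le_mul (by exact_mod_cast hi) (hK s hs) (norm_nonneg _) (by positivity)
  -- the descent step
  have step : ∀ M : ℝ, B' ^ 2 + 1 ≤ M → ∀ g ∈ ψ.ker, Conn X (Reg (ph ψ) M) 1 g →
      Conn X (Reg (ph ψ) (M - 1)) 1 g := by
    intro M hM g hg hcon
    have hlarge : ∀ p, Top (ph ψ) M p → B' ≤ ‖ph ψ p‖ := by
      intro p hp
      have h1 : M - 1 < ‖ph ψ p‖ ^ 2 := lt_of_not_ge hp.2
      have h2 : B' ^ 2 < ‖ph ψ p‖ ^ 2 := by linarith
      exact (lt_of_pow_lt_pow_left₀ 2 (norm_nonneg _) h2).le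
    have hzero : ∀ g ∈ ψ.ker, Reg (ph ψ) (M - 1) g := by
      intro g hg
      unfold Reg
      rw [(ph_eq_zero_iff ψ).2 hg]
      have : (0 : ℝ) ≤ B' ^ 2 := sq_nonneg _
      simp; linarith
    have hregQ : ∀ p s x, Top (ph ψ) M p → Good (ph ψ) X (c / 2) p s → x ∈ X →
        Reg (ph ψ) (M - 1) (p * x) → ∀ i ≤ r, Reg (ph ψ) (M - 1) (p * x * s ^ i) := by
      intro p s x hp hs hx hreg i hi
      rcases Nat.eq_zero_or_pos i with h0 | h0
      · subst h0; simpa using hreg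
      · refine reg_of hφ (p := p) (δ := c / 2) (C := C) (K := K) (reg_mono (by linarith) hreg) hK0
          ?_ (hpown s i hi hs.1) (hpowin p s i h0 hs) ?_
        · rw [hφ]; simpa using hK x hx
        · have := hlarge p hp; nlinarith
    have hregP : ∀ p s, Top (ph ψ) M p → Good (ph ψ) X (c / 2) p s → ∀ i ≤ r, 1 ≤ i →
        Reg (ph ψ) (M - 1) (p * s ^ i) := by
      intro p s hp hs i hi h0
      refine reg_of hφ (p := p) (δ := c / 2) (C := C) (K := K) hp.1 hK0
        ?_ (hpown s i hi hs.1) (hpowin p s i h0 hs) ?_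
      · simpa using hK0
      · have := hlarge p hp; nlinarith
    refine (descend hX hc (r := r) ?_ ?_ ?_ ?_ ?_ (hzero 1 (one_mem _)) hcon).1 (hzero g hg)
    · intro p hp
      have hne : ph ψ p ≠ 0 := by
        intro h0
        have := hlarge p hp
        rw [h0, norm_zero] at this
        linarith
      obtain ⟨s, hs, hs2⟩ := hin _ hne
      exact ⟨s, hs, hs2⟩
    · intro p s x hp hs hx hreg
      exact hpush M p s x hp (hB1.trans (hlarge p hp)) hs hx hreg
    · intro p s x hp hs hx hreg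
      refine Conn.pow fun i hi => ?_
      have h1 := hregQ p s x hp hs hx hreg i hi.le
      have h2 := hregQ p s x hp hs hx hreg (i + 1) hi
      have e : p * x * s ^ (i + 1) = p * x * s ^ i * s := by rw [pow_succ]; group
      rw [e] at h2 ⊢
      exact Conn.step h1 h2 hs.1
    · intro p s x hp hpx hx hs
      refine ⟨hs.1, ?_⟩
      have h1 := hs.2
      rw [hφ, inner_add_left] at h1
      have h2 : |⟪ph ψ x, ph ψ s⟫_ℝ| ≤ K * K :=
        (abs_real_inner_le_norm _ _).trans (mul_le_mul (hK x hx) (hK s hs.1) (norm_nonneg _) hK0)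
      have h3 : ‖ph ψ p‖ ≤ ‖ph ψ p + ph ψ x‖ + K := by
        have : ph ψ p = (ph ψ p + ph ψ x) - ph ψ x := by abel
        calc ‖ph ψ p‖ = ‖(ph ψ p + ph ψ x) - ph ψ x‖ := by rw [← this]
          _ ≤ ‖ph ψ p + ph ψ x‖ + ‖ph ψ x‖ := norm_sub_le _ _
          _ ≤ _ := by gcongr; exact hK x hx
      have h4 := hlarge p hp
      have h5 := abs_le.1 h2
      nlinarith
    · intro p s hp hs
      refine ⟨by simpa using hregP p s hp hs 1 hr le_rfl, ?_⟩
      obtain ⟨n, rfl⟩ : ∃ n, r = n + 1 := ⟨r - 1, by omega⟩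
      have e : p * s ^ (n + 1) = p * s * s ^ n := by rw [pow_succ']; group
      rw [e]
      refine Conn.pow fun i hi => ?_
      have h1 := hregP p s hp hs (i + 1) (by omega) (by omega)
      have h2 := hregP p s hp hs (i + 1 + 1) (by omega) (by omega)
      have e1 : p * s ^ (i + 1) = p * s * s ^ i := by rw [pow_succ']; group
      have e2 : p * s ^ (i + 1 + 1) = p * s * s ^ i * s := by
        rw [pow_succ, pow_succ']; group
      have e3 : p * s * s ^ (i + 1) = p * s * s ^ i * s := by rw [pow_succ]; group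
      rw [e1] at h1
      rw [e2] at h2
      rw [e3]
      exact Conn.step h1 h2 hs.1
  -- descend
  have all : ∀ n : ℕ, ∀ g ∈ ψ.ker, Conn X (Reg (ph ψ) (B' ^ 2 + 1 + n)) 1 g →
      Conn X (Reg (ph ψ) (B' ^ 2 + 1)) 1 g := by
    intro n
    induction n with
    | zero => intro g _ h; simpa using h
    | succ n ih =>
      intro g hg h
      apply ih g hg
      have h1 := step _ (by
        have : (0 : ℝ) ≤ ((n + 1 : ℕ) : ℝ) := Nat.cast_nonneg _
        linarith) g hg h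
      refine h1.mono fun w hw => reg_mono ?_ hw
      push_cast; linarith
  refine ker_fg_of_conn ψ hXfin (M0 := B' ^ 2 + 1) fun g hg => ?_
  obtain ⟨n, hn⟩ := exists_reg ψ hX hgen (B' ^ 2 + 1) g
  exact all n g hg hn

end ker

end Pool.Agent.TH555.FG
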