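import Pool.Agent.TH555.FG.Asm

/-! Subgroups with nilpotent quotient are f.g.; locally finite case (helper555). -/

namespace Pool.Agent.TH555.FG

open Subgroup
open Pool.Agent.H785R3.GrowthA
open scoped Pointwise commutatorElement

universe u v

lemma sub_fg_comm {A : Type u} [CommGroup A] [hA : Group.FG A] (P : Subgroup A) : P.FG := by
  haveI : AddGroup.FG (Additive A) := inferInstance
  haveI : Module.Finite ℤ (Additive A) := Module.Finite.iff_addGroup_fg.2 inferInstance
  haveI : IsNoetherian ℤ (Additive A) := inferInstance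
  have h1 : (AddSubgroup.toIntSubmodule (Subgroup.toAddSubgroup P)).FG := IsNoetherian.noetherian _
  rw [Submodule.fg_iff_addSubgroup_fg] at h1
  rw [Subgroup.fg_iff_add_fg]
  simpa using h1

lemma sub_fg {Q : Type u} [Group Q] {P R : Subgroup Q} (hP : P.FG)
    (hc : ∀ a ∈ P, ∀ b ∈ P, a * b = b * a) (hR : R ≤ P) : R.FG := by
  letI : CommGroup P :=
    { (inferInstance : Group P) with
      mul_comm := fun a b => Subtype.ext (hc a a.2 b b.2) }
  haveI : Group.FG P := (Group.fg_iff_subgroup_fg _).2 hP
  have h1 : (R.subgroupOf P).FG := sub_fg_comm _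
  have h2 := fg_map P.subtype h1
  rwa [subgroupOf_map_subtype, inf_eq_left.2 hR] at h2

lemma lift_fg {G : Type u} {Q : Type v} [Group G] [Group Q] (π : G →* Q) {N : Subgroup G}
    (hmap : (N.map π).FG) (hker : (N ⊓ π.ker).FG) : N.FG := by
  classical
  obtain ⟨T, hT, hTfin⟩ := (Subgroup.fg_iff _).1 hmap
  have hlift : ∀ x : Q, ∃ y : G, x ∈ T → y ∈ N ∧ π y = x := by
    intro x
    by_cases hx : x ∈ T
    · have : x ∈ N.map π := by rw [← hT]; exact Subgroup.subset_closure hx
      obtain ⟨y, hy, rfl⟩ := this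
      exact ⟨y, fun _ => ⟨hy, rfl⟩⟩
    · exact ⟨1, fun h => absurd h hx⟩
  choose f hf using hlift
  have hF : f '' T ⊆ N := by
    rintro _ ⟨x, hx, rfl⟩; exact (hf x hx).1
  have hFN : closure (f '' T) ≤ N := (closure_le _).2 hF
  have hmapF : (closure (f '' T)).map π = N.map π := by
    rw [MonoidHom.map_closure, ← hT]
    congr 1
    rw [← Set.image_comp]
    ext x
    constructor
    · rintro ⟨y, hy, rfl⟩
      show π (f y) ∈ T
      rw [(hf y hy).2]; exact hy
    · intro hx
      exact ⟨x, hx, (hf x hx).2⟩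
  have hsup : N = closure (f '' T) ⊔ (N ⊓ π.ker) := by
    apply le_antisymm
    · intro z hz
      have h1 : π z ∈ (closure (f '' T)).map π := by rw [hmapF]; exact ⟨z, hz, rfl⟩
      obtain ⟨w, hw, hwz⟩ := h1
      have h2 : w⁻¹ * z ∈ N ⊓ π.ker := by
        refine Subgroup.mem_inf.2 ⟨N.mul_mem (N.inv_mem (hFN hw)) hz, ?_⟩
        rw [MonoidHom.mem_ker, map_mul, map_inv, hwz, inv_mul_cancel]
      have : z = w * (w⁻¹ * z) := by group
      rw [this]
      exact mul_mem (mem_sup_left hw) (mem_sup_right h2)
    · exact sup_le hFN inf_le_left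
  rw [hsup]
  exact Subgroup.FG.sup ((Subgroup.fg_iff _).2 ⟨_, rfl, hTfin.image f⟩) hker

variable {G : Type u} [Group G] {S : Set G}

lemma fg_of_gam_le (hgam : ∀ n, (gam G n).FG) : ∀ (n : ℕ) (N : Subgroup G), gam G n ≤ N → N.FG := by
  intro n
  induction n with
  | zero =>
    intro N hN
    have : N = ⊤ := top_le_iff.1 hN
    rw [this]; exact hgam 0
  | succ n ih =>
    intro N hN
    let π := QuotientGroup.mk' (gam G n)
    let π' := QuotientGroup.mk' (gam G (n + 1))
    refine lift_fg π ?_ ?_
    · have h1 := fg_map π (ih (N ⊔ gam G n) le_sup_right)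
      have h2 : (N ⊔ gam G n).map π = N.map π := by
        rw [Subgroup.map_sup]
        apply sup_eq_left.2
        rintro _ ⟨x, hx, rfl⟩
        have : π x = 1 := (QuotientGroup.eq_one_iff x).2 hx
        rw [this]; exact one_mem _
      rwa [h2] at h1
    · have hk : π.ker = gam G n := QuotientGroup.ker_mk' _
      rw [hk]
      refine lift_fg π' ?_ ?_
      · refine sub_fg (P := (gam G n).map π') (fg_map π' (hgam n)) ?_ (map_mono inf_le_right)
        rintro _ ⟨a, ha, rfl⟩ b _
        exact central_quot ha b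
      · have hk' : π'.ker = gam G (n + 1) := QuotientGroup.ker_mk' _
        have : N ⊓ gam G n ⊓ π'.ker = gam G (n + 1) := by
          rw [hk']
          apply le_antisymm inf_le_right
          exact le_inf (le_inf hN (gam_succ_le n)) le_rfl
        rw [this]; exact hgam (n + 1)

/-- Without free pairs in `S ^ 2`, `S ^ 3`: every normal subgroup with nilpotent quotient is f.g. -/
theorem fg_of_nilpotent_quotient (hfin : S.Finite) (hS : closure S = ⊤) (hNF : NoFree S 3)
    (N : Subgroup G) [N.Normal] (hN : Group.IsNilpotent (G ⧸ N)) : N.FG := by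
  obtain ⟨n, hn⟩ := (_root_.nilpotent_iff_lowerCentralSeries (G := G ⧸ N)).1 hN
  refine fg_of_gam_le (gam_fg hfin hS hNF) n N ?_
  have h1 : (gam G n).map (QuotientGroup.mk' N) = ⊥ := by
    rw [← gam_map (QuotientGroup.mk'_surjective N)]
    exact hn
  rw [Subgroup.map_eq_bot_iff, QuotientGroup.ker_mk'] at h1
  exact h1

/-- a group with a finite term of the lower central series is virtually nilpotent -/
lemma virtNilp_of_finite_gam {n : ℕ} (h : Finite (gam G n)) : Group.IsVirtuallyNilpotent G := by
  haveI : Finite (MulAut (gam G n)) := inferInstance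
  let c : G →* MulAut (gam G n) := MulAut.conjNormal
  have hfi : c.ker.FiniteIndex := inferInstance
  refine ⟨c.ker, ?_, hfi⟩
  have hsub : ∀ i : ℕ, (gam c.ker i).map c.ker.subtype ≤ gam G i := by
    intro i
    induction i with
    | zero => exact le_top
    | succ i ih =>
      show ((⊤ : Subgroup c.ker).lowerCentralSeries (i + 1)).map _ ≤
        (⊤ : Subgroup G).lowerCentralSeries (i + 1)
      rw [Subgroup.lowerCentralSeries_succ, Subgroup.lowerCentralSeries_succ, map_commutator]
      exact commutator_mono ih le_top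
  refine (_root_.nilpotent_iff_lowerCentralSeries (G := c.ker)).2 ⟨n + 1, ?_⟩
  rw [Subgroup.lowerCentralSeries_succ, commutator_eq_bot_iff_le_centralizer]
  intro z hz
  rw [mem_centralizer_iff]
  intro k _
  have hz' : (z : G) ∈ gam G n := hsub n ⟨z, hz, rfl⟩
  have hk : c (k : G) = 1 := k.2
  have h1 := congrArg (fun e : MulAut (gam G n) => ((e ⟨z, hz'⟩ : gam G n) : G)) hk
  simp only [c, MulAut.conjNormal_apply, MulAut.one_apply] at h1
  apply Subtype.ext
  show (k : G) * z = z * k
  rwa [mul_inv_eq_iff_eq_mul] at h1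

end Pool.Agent.TH555.FG
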