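import Pool.Agent.TH555.FG.Desc
import Pool.Agent.H785R3.GrowthE

/-! Groups without short free pairs: kernels of maps to `ℤ ^ m` are f.g. (helper555). -/

namespace Pool.Agent.TH555.FG

open Subgroup
open Pool.Agent.H785R3.GrowthA
open scoped InnerProductSpace Pointwise

universe u v

section edge

variable {H : Type u} [Group H]

/-- `D` is a product of conjugates `a ^ (j + 1) D a ^ -(j + 1)` -/
def PushBy (a D : H) : Prop :=
  ∃ m : ℕ, D ∈ closure ((fun j : ℕ => a ^ (j + 1) * D * (a ^ (j + 1))⁻¹) '' Set.Iio m)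

lemma pushBy_of_int {t c : H} (h : Int1 t c) : PushBy t⁻¹ c := by
  obtain ⟨m, hm⟩ := h
  refine ⟨m, ?_⟩
  have h3 := conj_mem_of (g := (t ^ m)⁻¹)
    (K := closure ((fun j : ℕ => t⁻¹ ^ (j + 1) * c * (t⁻¹ ^ (j + 1))⁻¹) '' Set.Iio m)) hm (by
      rintro _ ⟨j, hj, rfl⟩
      have hj' : j < m := hj
      apply Subgroup.subset_closure
      refine ⟨m - 1 - j, by show m - 1 - j < m; omega, ?_⟩
      have e1 : t ^ m = t ^ (m - 1 - j + 1) * t ^ j := by rw [← pow_add]; congr 1; omega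
      simp only
      rw [e1, inv_pow]
      group)
  have e : (t ^ m)⁻¹ * (t ^ m * c * (t ^ m)⁻¹) * ((t ^ m)⁻¹)⁻¹ = c := by group
  rwa [e] at h3

variable {E : Type v} [NormedAddCommGroup E] [InnerProductSpace ℝ E] {φ : H → E} {X : Set H}

lemma conn_of_pushBy (hX : ∀ x ∈ X, x⁻¹ ∈ X) (hφ : ∀ a b, φ (a * b) = φ a + φ b) {M : ℝ} {q a D : H}
    (hD : φ D = 0) {m : ℕ}
    (hm : D ∈ closure ((fun j : ℕ => a ^ (j + 1) * D * (a ^ (j + 1))⁻¹) '' Set.Iio m))
    (h1 : ∀ j < m, Conn X (Reg φ M) (q * a ^ j) (q * a ^ (j + 1)))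
    (h2 : ∀ j, 1 ≤ j → j ≤ m → Conn X (Reg φ M) (q * a ^ j) (q * a ^ j * D)) :
    Conn X (Reg φ M) q (q * D) := by
  refine (conn_closure hX hφ (q := q) ?_ D hm).2
  rintro _ ⟨j, hj, rfl⟩
  have hj' : j < m := hj
  refine ⟨?_, ?_⟩
  · rw [hφ, hφ, phi_inv hφ, hD]; abel
  · exact conn_conj hX hφ hD (Conn.pow fun i hi => h1 i (by omega)) (h2 (j + 1) (by omega) (by omega))

set_option maxHeartbeats 4000000 in
theorem edge (hX : ∀ x ∈ X, x⁻¹ ∈ X) (hφ : ∀ a b, φ (a * b) = φ a + φ b) {s t : H} (hs : s ∈ X)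
    (ht : t ∈ X) (hA : PushBy (s * t) ((s * t)⁻¹ * (t * s)))
    (hB : PushBy (s * t)⁻¹ ((s * t)⁻¹ * (t * s)))
    (hC : PushBy (s * s * t) ((s * t)⁻¹ * (t * s))) {c : ℝ} (hc : 0 < c) :
    ∃ B : ℝ, ∀ (M : ℝ) (p b : H), Reg φ M b → Reg φ M (b * t) → (p = b ∨ p = b * t) →
      ⟪φ p, φ s⟫_ℝ ≤ -c * ‖φ p‖ → B ≤ ‖φ p‖ →
      Conn X (Reg φ (M - 1)) (b * s) (b * t * s) := by
  classical
  set D := (s * t)⁻¹ * (t * s) with hDdef
  have hD : φ D = 0 := by rw [hDdef, hφ, phi_inv hφ, hφ, hφ]; abel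
  obtain ⟨mA, hmA⟩ := hA
  obtain ⟨mB, hmB⟩ := hB
  obtain ⟨mC, hmC⟩ := hC
  set N : ℝ := 2 * (mA + mB + mC) + 5 with hN
  set K : ℝ := ‖φ s‖ + ‖φ t‖ with hK
  have hK0 : 0 ≤ K := by positivity
  have hN0 : 0 ≤ N := by positivity
  set C : ℝ := (2 * N + 1) * K with hCdef
  set τ : ℝ := c / 3 with hτ
  have hτ0 : 0 < τ := by positivity
  refine ⟨(2 * K * C + C ^ 2 + 1) / (2 * τ), ?_⟩
  intro M p b hb hbt hp hin hlarge
  set σ := ⟪φ p, φ s⟫_ℝ with hσ
  set ξ := ⟪φ p, φ t⟫_ℝ with hξ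
  set L := ‖φ p‖ with hL
  have hL0 : 0 ≤ L := norm_nonneg _
  have hσ3 : σ ≤ -3 * (τ * L) := by
    have : -c * L = -3 * (τ * L) := by rw [hτ]; ring
    linarith
  have hlarge' : 2 * K * C + C ^ 2 + 1 ≤ 2 * τ * L := by
    rw [div_le_iff₀ (by positivity)] at hlarge
    linarith
  have hτL : 0 ≤ τ * L := by positivity
  have hbp : ‖φ b - φ p‖ ≤ K := by
    rcases hp with h | h
    · rw [h]; simpa using hK0
    · rw [h, hφ]
      have : φ b - (φ b + φ t) = - φ t := by abel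
      rw [this, norm_neg]
      have := norm_nonneg (φ s)
      linarith
  have hbp' : ‖φ (b * t) - φ p‖ ≤ K := by
    rcases hp with h | h
    · rw [h, hφ]
      have : φ b + φ t - φ b = φ t := by abel
      rw [this]
      have := norm_nonneg (φ s)
      linarith
    · rw [h]; simpa using hK0
  -- vertices
  have hnorm : ∀ (w : H) (n1 n2 : ℝ), φ w = n1 • φ s + n2 • φ t → |n1| ≤ 2 * N + 1 → |n2| ≤ 2 * N + 1 →
      ‖φ w‖ ≤ C := by
    intro w n1 n2 hw h1 h2
    rw [hw]
    calc ‖n1 • φ s + n2 • φ t‖ ≤ ‖n1 • φ s‖ + ‖n2 • φ t‖ := norm_add_le _ _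
      _ = |n1| * ‖φ s‖ + |n2| * ‖φ t‖ := by rw [norm_smul, norm_smul, Real.norm_eq_abs, Real.norm_eq_abs]
      _ ≤ (2 * N + 1) * ‖φ s‖ + (2 * N + 1) * ‖φ t‖ := by gcongr
      _ = C := by rw [hCdef, hK]; ring
  let ok : ℝ → ℝ → Prop := fun n1 n2 => |n1| ≤ N ∧ |n2| ≤ N ∧
    (n1 * σ + n2 * ξ ≤ -(τ * L) ∨ n1 * σ + (n2 - 1) * ξ ≤ -(τ * L))
  have vert : ∀ (w : H) (n1 n2 : ℝ), φ w = n1 • φ s + n2 • φ t → ok n1 n2 →
      Reg φ (M - 1) (b * w) := by
    rintro w n1 n2 hw ⟨h1, h2, h3⟩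
    rcases h3 with h3 | h3
    · refine reg_of hφ (p := p) (δ := τ) (C := C) (K := K) hb hK0 hbp
        (hnorm w n1 n2 hw (by linarith) (by linarith)) ?_ hlarge'
      rw [hw, inner_add_right, inner_smul_right, inner_smul_right]
      linarith
    · have e : b * w = b * t * (t⁻¹ * w) := by group
      have hw' : φ (t⁻¹ * w) = n1 • φ s + (n2 - 1) • φ t := by
        rw [hφ, phi_inv hφ, hw, sub_smul, one_smul]; abel
      rw [e]
      refine reg_of hφ (p := p) (δ := τ) (C := C) (K := K) hbt hK0 hbp'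
        (hnorm _ n1 (n2 - 1) hw' (by linarith) ?_) ?_ hlarge'
      · rw [abs_le] at h2 ⊢; constructor <;> linarith
      · rw [hw', inner_add_right, inner_smul_right, inner_smul_right]
        linarith
  have vert' : ∀ (w : H) (n1 n2 : ℝ), φ w = n1 • φ s + n2 • φ t → ok n1 n2 → ∀ v, v = b * w →
      Reg φ (M - 1) v := by
    intro w n1 n2 hw h v hv; rw [hv]; exact vert w n1 n2 hw h
  have stepS : ∀ (w : H) (n1 n2 : ℝ), φ w = n1 • φ s + n2 • φ t → ok n1 n2 → ok (n1 + 1) n2 →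
      Conn X (Reg φ (M - 1)) (b * w) (b * w * s) := by
    intro w n1 n2 hw h1 h2
    refine Conn.step (vert w n1 n2 hw h1) (vert' (w * s) (n1 + 1) n2 ?_ h2 _ (by group)) hs
    rw [hφ, hw, add_smul, one_smul]; abel
  have stepT : ∀ (w : H) (n1 n2 : ℝ), φ w = n1 • φ s + n2 • φ t → ok n1 n2 → ok n1 (n2 + 1) →
      Conn X (Reg φ (M - 1)) (b * w) (b * w * t) := by
    intro w n1 n2 hw h1 h2
    refine Conn.step (vert w n1 n2 hw h1) (vert' (w * t) n1 (n2 + 1) ?_ h2 _ (by group)) ht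
    rw [hφ, hw, add_smul, one_smul]; abel
  have stepS' : ∀ (w : H) (n1 n2 : ℝ), φ w = n1 • φ s + n2 • φ t → ok n1 n2 → ok (n1 - 1) n2 →
      Conn X (Reg φ (M - 1)) (b * w) (b * w * s⁻¹) := by
    intro w n1 n2 hw h1 h2
    refine Conn.step (vert w n1 n2 hw h1) (vert' (w * s⁻¹) (n1 - 1) n2 ?_ h2 _ (by group)) (hX s hs)
    rw [hφ, phi_inv hφ, hw, sub_smul, one_smul]; abel
  have stepT' : ∀ (w : H) (n1 n2 : ℝ), φ w = n1 • φ s + n2 • φ t → ok n1 n2 → ok n1 (n2 - 1) →
      Conn X (Reg φ (M - 1)) (b * w) (b * w * t⁻¹) := by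
    intro w n1 n2 hw h1 h2
    refine Conn.step (vert w n1 n2 hw h1) (vert' (w * t⁻¹) n1 (n2 - 1) ?_ h2 _ (by group)) (hX t ht)
    rw [hφ, phi_inv hφ, hw, sub_smul, one_smul]; abel
  have loop : ∀ (w : H) (n1 n2 : ℝ), φ w = n1 • φ s + n2 • φ t → ok n1 n2 → ok n1 (n2 - 1) →
      ok (n1 - 1) (n2 - 1) → ok (n1 - 1) n2 → Conn X (Reg φ (M - 1)) (b * w) (b * w * D) := by
    intro w n1 n2 hw h1 h2 h3 h4
    have w1 : φ (w * t⁻¹) = n1 • φ s + (n2 - 1) • φ t := by
      rw [hφ, phi_inv hφ, hw, sub_smul, one_smul]; abel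
    have w2 : φ (w * t⁻¹ * s⁻¹) = (n1 - 1) • φ s + (n2 - 1) • φ t := by
      rw [hφ, phi_inv hφ, w1, sub_smul n1, one_smul]; abel
    have w3 : φ (w * t⁻¹ * s⁻¹ * t) = (n1 - 1) • φ s + n2 • φ t := by
      rw [hφ, w2, sub_smul n2, one_smul]; abel
    have c1 := stepT' w n1 n2 hw h1 h2
    have c2 := stepS' (w * t⁻¹) n1 (n2 - 1) w1 h2 h3
    have c3 := stepT (w * t⁻¹ * s⁻¹) (n1 - 1) (n2 - 1) w2 h3 (by simpa using h4)
    have c4 := stepS (w * t⁻¹ * s⁻¹ * t) (n1 - 1) n2 w3 h4 (by simpa using h1)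
    have e1 : b * (w * t⁻¹) = b * w * t⁻¹ := by group
    have e2 : b * (w * t⁻¹ * s⁻¹) = b * w * t⁻¹ * s⁻¹ := by group
    have e3 : b * (w * t⁻¹ * s⁻¹ * t) = b * w * t⁻¹ * s⁻¹ * t := by group
    have e4 : b * w * t⁻¹ * s⁻¹ * t * s = b * w * D := by rw [hDdef]; group
    rw [e1] at c2
    rw [e2] at c3
    rw [e3, e4] at c4
    exact ((c1.trans c2).trans c3).trans c4
  have hst : φ (s * t) = (1 : ℝ) • φ s + (1 : ℝ) • φ t := by rw [hφ, one_smul, one_smul]
  have habs : ∀ x : ℝ, 0 ≤ x → x ≤ N → |x| ≤ N := fun x h1 h2 => by rwa [abs_of_nonneg h1]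
  have habs' : ∀ x : ℝ, -N ≤ x → x ≤ 0 → |x| ≤ N := fun x h1 h2 => abs_le.2 ⟨h1, by linarith⟩
  have habs2 : ∀ x : ℝ, -N ≤ x → x ≤ N → |x| ≤ N := fun x h1 h2 => abs_le.2 ⟨h1, h2⟩
  -- the main point
  have main : Conn X (Reg φ (M - 1)) (b * (s * t)) (b * (s * t) * D) := by
    by_cases hcA : σ + ξ ≤ -(τ * L)
    · -- case A
      refine conn_of_pushBy hX hφ hD hmA ?_ ?_
      · intro j hj
        have hjr : (0 : ℝ) ≤ j := Nat.cast_nonneg j
        have hjm : (j : ℝ) ≤ mA := by exact_mod_cast hj.le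
        have hB0 : (0 : ℝ) ≤ mB := Nat.cast_nonneg _
        have hC0 : (0 : ℝ) ≤ mC := Nat.cast_nonneg _
        have hmul : (j : ℝ) * (σ + ξ) ≤ 0 := mul_nonpos_of_nonneg_of_nonpos hjr (by linarith)
        have w1 : φ (s * t * (s * t) ^ j) = ((1 : ℝ) + j) • φ s + ((1 : ℝ) + j) • φ t := by
          rw [hφ, phi_pow hφ, hst]; module
        have w2 : φ (s * t * (s * t) ^ j * s) = ((1 : ℝ) + j + 1) • φ s + ((1 : ℝ) + j) • φ t := by
          rw [hφ, w1]; module
        have o1 : ok (1 + j) (1 + j) := ⟨habs _ (by linarith) (by linarith),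
          habs _ (by linarith) (by linarith), Or.inr (by linarith)⟩
        have o2 : ok (1 + j + 1) (1 + j) := ⟨habs _ (by linarith) (by linarith),
          habs _ (by linarith) (by linarith), Or.inr (by linarith)⟩
        have o3 : ok (1 + j + 1) (1 + j + 1) := ⟨habs _ (by linarith) (by linarith),
          habs _ (by linarith) (by linarith), Or.inr (by linarith)⟩
        have c1 := stepS _ _ _ w1 o1 o2
        have c2 := stepT _ _ _ w2 o2 o3
        have e1 : b * (s * t * (s * t) ^ j) = b * (s * t) * (s * t) ^ j := by simp only [mul_assoc]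
        have e2 : b * (s * t * (s * t) ^ j * s) = b * (s * t) * (s * t) ^ j * s := by simp only [mul_assoc]
        have e3 : b * (s * t) * (s * t) ^ j * s * t = b * (s * t) * (s * t) ^ (j + 1) := by
          rw [pow_succ]; simp only [mul_assoc]
        rw [e1] at c1
        rw [e2, e3] at c2
        exact c1.trans c2
      · intro j hj1 hj
        have hjr : (1 : ℝ) ≤ j := by exact_mod_cast hj1
        have hjm : (j : ℝ) ≤ mA := by exact_mod_cast hj
        have hB0 : (0 : ℝ) ≤ mB := Nat.cast_nonneg _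
        have hC0 : (0 : ℝ) ≤ mC := Nat.cast_nonneg _
        have hmul : (j : ℝ) * (σ + ξ) ≤ -(τ * L) := by nlinarith
        have w1 : φ (s * t * (s * t) ^ j) = ((1 : ℝ) + j) • φ s + ((1 : ℝ) + j) • φ t := by
          rw [hφ, phi_pow hφ, hst]; module
        have c := loop _ _ _ w1 ⟨habs _ (by linarith) (by linarith),
          habs _ (by linarith) (by linarith), Or.inr (by linarith)⟩
          ⟨habs _ (by linarith) (by linarith),
          habs _ (by linarith) (by linarith), Or.inl (by linarith)⟩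
          ⟨habs _ (by linarith) (by linarith),
          habs _ (by linarith) (by linarith), Or.inl (by linarith)⟩
          ⟨habs _ (by linarith) (by linarith),
          habs _ (by linarith) (by linarith), Or.inr (by linarith)⟩
        have e1 : b * (s * t * (s * t) ^ j) = b * (s * t) * (s * t) ^ j := by simp only [mul_assoc]
        rwa [e1] at c
    · by_cases hcB : τ * L ≤ σ + ξ
      · -- case B
        refine conn_of_pushBy hX hφ hD hmB ?_ ?_
        · intro j hj
          have hjr : (0 : ℝ) ≤ j := Nat.cast_nonneg j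
          have hjm : (j : ℝ) ≤ mB := by exact_mod_cast hj.le
          have hB0 : (0 : ℝ) ≤ mA := Nat.cast_nonneg _
          have hC0 : (0 : ℝ) ≤ mC := Nat.cast_nonneg _
          have hmul : 0 ≤ (j : ℝ) * (σ + ξ) := mul_nonneg hjr (by linarith)
          have w1 : φ (s * t * (s * t)⁻¹ ^ j) = ((1 : ℝ) - j) • φ s + ((1 : ℝ) - j) • φ t := by
            rw [hφ, phi_pow hφ, phi_inv hφ, hst]; module
          have w2 : φ (s * t * (s * t)⁻¹ ^ j * t⁻¹) =
              ((1 : ℝ) - j) • φ s + ((1 : ℝ) - j - 1) • φ t := by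
            rw [hφ, w1, phi_inv hφ]; module
          have o1 : ok (1 - j) (1 - j) := ⟨habs2 _ (by linarith) (by linarith),
            habs2 _ (by linarith) (by linarith), Or.inr (by linarith)⟩
          have o2 : ok (1 - j) (1 - j - 1) := ⟨habs2 _ (by linarith) (by linarith),
            habs2 _ (by linarith) (by linarith), Or.inl (by linarith)⟩
          have o3 : ok (1 - j - 1) (1 - j - 1) := ⟨habs2 _ (by linarith) (by linarith),
            habs2 _ (by linarith) (by linarith), Or.inr (by linarith)⟩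
          have c1 := stepT' _ _ _ w1 o1 o2
          have c2 := stepS' _ _ _ w2 o2 o3
          have e1 : b * (s * t * (s * t)⁻¹ ^ j) = b * (s * t) * (s * t)⁻¹ ^ j := by simp only [mul_assoc]
          have e2 : b * (s * t * (s * t)⁻¹ ^ j * t⁻¹) = b * (s * t) * (s * t)⁻¹ ^ j * t⁻¹ := by
            simp only [mul_assoc]
          have e3 : b * (s * t) * (s * t)⁻¹ ^ j * t⁻¹ * s⁻¹ = b * (s * t) * (s * t)⁻¹ ^ (j + 1) := by
            have ee : t⁻¹ * s⁻¹ = (s * t)⁻¹ := (mul_inv_rev s t).symm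
            rw [pow_succ, ← ee, ee, mul_assoc _ t⁻¹ s⁻¹, ee, mul_assoc _ _ (s * t)⁻¹]
          rw [e1] at c1
          rw [e2, e3] at c2
          exact c1.trans c2
        · intro j hj1 hj
          have hjr : (1 : ℝ) ≤ j := by exact_mod_cast hj1
          have hjm : (j : ℝ) ≤ mB := by exact_mod_cast hj
          have hB0 : (0 : ℝ) ≤ mA := Nat.cast_nonneg _
          have hC0 : (0 : ℝ) ≤ mC := Nat.cast_nonneg _
          have hmul : τ * L ≤ (j : ℝ) * (σ + ξ) := by nlinarith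
          have w1 : φ (s * t * (s * t)⁻¹ ^ j) = ((1 : ℝ) - j) • φ s + ((1 : ℝ) - j) • φ t := by
            rw [hφ, phi_pow hφ, phi_inv hφ, hst]; module
          have c := loop _ _ _ w1 ⟨habs2 _ (by linarith) (by linarith),
            habs2 _ (by linarith) (by linarith), Or.inr (by linarith)⟩
            ⟨habs2 _ (by linarith) (by linarith),
            habs2 _ (by linarith) (by linarith), Or.inl (by linarith)⟩
            ⟨habs2 _ (by linarith) (by linarith),
            habs2 _ (by linarith) (by linarith), Or.inl (by linarith)⟩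
            ⟨habs2 _ (by linarith) (by linarith),
            habs2 _ (by linarith) (by linarith), Or.inr (by linarith)⟩
          have e1 : b * (s * t * (s * t)⁻¹ ^ j) = b * (s * t) * (s * t)⁻¹ ^ j := by simp only [mul_assoc]
          rwa [e1] at c
      · -- case C
        push Not at hcA hcB
        have h2 : 2 * σ + ξ ≤ -2 * (τ * L) := by linarith
        have hsst : φ (s * s * t) = (2 : ℝ) • φ s + (1 : ℝ) • φ t := by
          rw [hφ, hφ]; module
        refine conn_of_pushBy hX hφ hD hmC ?_ ?_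
        · intro j hj
          have hjr : (0 : ℝ) ≤ j := Nat.cast_nonneg j
          have hjm : (j : ℝ) ≤ mC := by exact_mod_cast hj.le
          have hB0 : (0 : ℝ) ≤ mA := Nat.cast_nonneg _
          have hC0 : (0 : ℝ) ≤ mB := Nat.cast_nonneg _
          have hmul : (j : ℝ) * (2 * σ + ξ) ≤ 0 :=
            mul_nonpos_of_nonneg_of_nonpos hjr (by linarith)
          have w1 : φ (s * t * (s * s * t) ^ j) =
              ((1 : ℝ) + 2 * j) • φ s + ((1 : ℝ) + j) • φ t := by
            rw [hφ, phi_pow hφ, hst, hsst]; module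
          have w2 : φ (s * t * (s * s * t) ^ j * s) =
              ((1 : ℝ) + 2 * j + 1) • φ s + ((1 : ℝ) + j) • φ t := by
            rw [hφ, w1]; module
          have w3 : φ (s * t * (s * s * t) ^ j * s * s) =
              ((1 : ℝ) + 2 * j + 1 + 1) • φ s + ((1 : ℝ) + j) • φ t := by
            rw [hφ, w2]; module
          have o1 : ok (1 + 2 * j) (1 + j) := ⟨habs _ (by linarith) (by linarith),
            habs _ (by linarith) (by linarith), Or.inr (by linarith)⟩
          have o2 : ok (1 + 2 * j + 1) (1 + j) := ⟨habs _ (by linarith) (by linarith),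
            habs _ (by linarith) (by linarith), Or.inr (by linarith)⟩
          have o3 : ok (1 + 2 * j + 1 + 1) (1 + j) := ⟨habs _ (by linarith) (by linarith),
            habs _ (by linarith) (by linarith), Or.inr (by linarith)⟩
          have o4 : ok (1 + 2 * j + 1 + 1) (1 + j + 1) := ⟨habs _ (by linarith) (by linarith),
            habs _ (by linarith) (by linarith), Or.inr (by linarith)⟩
          have c1 := stepS _ _ _ w1 o1 o2
          have c2 := stepS _ _ _ w2 o2 o3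
          have c3 := stepT _ _ _ w3 o3 o4
          have e1 : b * (s * t * (s * s * t) ^ j) = b * (s * t) * (s * s * t) ^ j := by simp only [mul_assoc]
          have e2 : b * (s * t * (s * s * t) ^ j * s) = b * (s * t) * (s * s * t) ^ j * s := by simp only [mul_assoc]
          have e3 : b * (s * t * (s * s * t) ^ j * s * s) = b * (s * t) * (s * s * t) ^ j * s * s := by
            simp only [mul_assoc]
          have e4 : b * (s * t) * (s * s * t) ^ j * s * s * t =
              b * (s * t) * (s * s * t) ^ (j + 1) := by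
            rw [pow_succ]; simp only [mul_assoc]
          rw [e1] at c1
          rw [e2] at c2
          rw [e3, e4] at c3
          exact (c1.trans c2).trans c3
        · intro j hj1 hj
          have hjr : (1 : ℝ) ≤ j := by exact_mod_cast hj1
          have hjm : (j : ℝ) ≤ mC := by exact_mod_cast hj
          have hB0 : (0 : ℝ) ≤ mA := Nat.cast_nonneg _
          have hC0 : (0 : ℝ) ≤ mB := Nat.cast_nonneg _
          have hmul : (j : ℝ) * (2 * σ + ξ) ≤ -(τ * L) := by nlinarith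
          have w1 : φ (s * t * (s * s * t) ^ j) =
              ((1 : ℝ) + 2 * j) • φ s + ((1 : ℝ) + j) • φ t := by
            rw [hφ, phi_pow hφ, hst, hsst]; module
          have c := loop _ _ _ w1 ⟨habs _ (by linarith) (by linarith),
            habs _ (by linarith) (by linarith), Or.inr (by linarith)⟩
            ⟨habs _ (by linarith) (by linarith),
            habs _ (by linarith) (by linarith), Or.inl (by linarith)⟩
            ⟨habs _ (by linarith) (by linarith),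
            habs _ (by linarith) (by linarith), Or.inl (by linarith)⟩
            ⟨habs _ (by linarith) (by linarith),
            habs _ (by linarith) (by linarith), Or.inr (by linarith)⟩
          have e1 : b * (s * t * (s * s * t) ^ j) = b * (s * t) * (s * s * t) ^ j := by simp only [mul_assoc]
          rwa [e1] at c
  have hs1 : φ s = (1 : ℝ) • φ s + (0 : ℝ) • φ t := by module
  have hm0 : (0 : ℝ) ≤ mA := Nat.cast_nonneg _
  have hm1 : (0 : ℝ) ≤ mB := Nat.cast_nonneg _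
  have hm2 : (0 : ℝ) ≤ mC := Nat.cast_nonneg _
  have first := stepT s 1 0 hs1 ⟨habs _ (by linarith) (by linarith),
      habs _ (by linarith) (by linarith), Or.inl (by linarith)⟩
    ⟨habs _ (by linarith) (by linarith),
      habs _ (by linarith) (by linarith), Or.inr (by linarith)⟩
  have e1 : b * s * t = b * (s * t) := by group
  have e2 : b * (s * t) * D = b * t * s := by rw [hDdef]; group
  rw [e1] at first
  rw [e2] at main
  exact first.trans main

end edge

section step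

variable {G : Type u} [Group G]

lemma pushes {s t : G} (h1 : ¬ FreePair (s * t) (t * s)) (h2 : ¬ FreePair (s * s * t) (s * t * s)) :
    PushBy (s * t) ((s * t)⁻¹ * (t * s)) ∧ PushBy (s * t)⁻¹ ((s * t)⁻¹ * (t * s)) ∧
      PushBy (s * s * t) ((s * t)⁻¹ * (t * s)) := by
  have e1 : t * s = s * t * ((s * t)⁻¹ * (t * s)) := by group
  have e2 : s * t * s = s * s * t * ((s * t)⁻¹ * (t * s)) := by group
  rw [e1] at h1
  rw [e2] at h2
  obtain ⟨a1, a2⟩ := int_of_not_free h1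
  obtain ⟨b1, b2⟩ := int_of_not_free h2
  refine ⟨?_, pushBy_of_int a1, ?_⟩
  · have := pushBy_of_int a2
    rwa [inv_inv] at this
  · have := pushBy_of_int b2
    rwa [inv_inv] at this

/-- Without free pairs in `S ^ 2` and `S ^ 3`, kernels of maps onto `ℤ ^ m` are f.g. -/
theorem ker_fg_of_noFree {S : Set G} (hfin : S.Finite) (hS : closure S = ⊤) (hNF : NoFree S 3)
    {m : ℕ} (ψ : G →* Multiplicative (Fin m → ℤ)) (hψ : Function.Surjective ψ) : ψ.ker.FG := by
  classical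
  set X : Set G := S ∪ S⁻¹ with hXdef
  have hXfin : X.Finite := hfin.union hfin.inv
  have hX : ∀ x ∈ X, x⁻¹ ∈ X := by
    intro x hx
    rcases hx with hx | hx
    · right; simpa using hx
    · left; simpa using hx
  have hgen : closure X = ⊤ := by
    rw [eq_top_iff, ← hS]
    exact closure_mono Set.subset_union_left
  have hφ := ph_mul ψ
  -- pushes for pairs
  have hP : ∀ s t : G, (s ∈ S ∧ t ∈ S) ∨ (s ∈ S⁻¹ ∧ t ∈ S⁻¹) →
      PushBy (s * t) ((s * t)⁻¹ * (t * s)) ∧ PushBy (s * t)⁻¹ ((s * t)⁻¹ * (t * s)) ∧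
      PushBy (s * s * t) ((s * t)⁻¹ * (t * s)) := by
    intro s t hst
    rcases hst with ⟨hs, ht⟩ | ⟨hs, ht⟩
    · have hs1 : s ∈ S ^ 1 := by simpa using hs
      have ht1 : t ∈ S ^ 1 := by simpa using ht
      refine pushes (hNF 2 (by norm_num) _ (mul_mem_pow hs1 ht1 rfl) _ (mul_mem_pow ht1 hs1 rfl))
        (hNF 3 le_rfl _ (mul_mem_pow (mul_mem_pow hs1 hs1 rfl) ht1 rfl) _
          (mul_mem_pow (mul_mem_pow hs1 ht1 rfl) hs1 rfl))
    · have hs1 : s⁻¹ ∈ S ^ 1 := by simpa using hs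
      have ht1 : t⁻¹ ∈ S ^ 1 := by simpa using ht
      refine pushes (fun h => ?_) (fun h => ?_)
      · refine hNF 2 (by norm_num) _ (mul_mem_pow ht1 hs1 rfl) _ (mul_mem_pow hs1 ht1 rfl) ?_
        apply FreePair.of_inv
        have e1 : (t⁻¹ * s⁻¹)⁻¹ = s * t := by group
        have e2 : (s⁻¹ * t⁻¹)⁻¹ = t * s := by group
        rw [e1, e2]; exact h
      · refine hNF 3 le_rfl _ (mul_mem_pow (mul_mem_pow ht1 hs1 rfl) hs1 rfl) _
          (mul_mem_pow (mul_mem_pow hs1 ht1 rfl) hs1 rfl) ?_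
        apply FreePair.of_inv
        have e1 : (t⁻¹ * s⁻¹ * s⁻¹)⁻¹ = s * s * t := by simp only [mul_inv_rev, inv_inv, mul_assoc]
        have e2 : (s⁻¹ * t⁻¹ * s⁻¹)⁻¹ = s * t * s := by simp only [mul_inv_rev, inv_inv, mul_assoc]
        rw [e1, e2]; exact h
  refine ker_fg_of_push ψ hψ hXfin hX hgen ?_
  intro c hc
  refine ⟨1, le_rfl, ?_⟩
  have hE : ∀ q : G × G, ∃ B : ℝ, ((q.1 ∈ S ∧ q.2 ∈ S) ∨ (q.1 ∈ S⁻¹ ∧ q.2 ∈ S⁻¹)) →
      ∀ (M : ℝ) (p b : G), Reg (ph ψ) M b → Reg (ph ψ) M (b * q.2) → (p = b ∨ p = b * q.2) →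
      ⟪ph ψ p, ph ψ q.1⟫_ℝ ≤ -c * ‖ph ψ p‖ → B ≤ ‖ph ψ p‖ →
      Conn X (Reg (ph ψ) (M - 1)) (b * q.1) (b * q.2 * q.1) := by
    rintro ⟨s, t⟩
    by_cases hq : (s ∈ S ∧ t ∈ S) ∨ (s ∈ S⁻¹ ∧ t ∈ S⁻¹)
    · obtain ⟨p1, p2, p3⟩ := hP s t hq
      have hs : s ∈ X := by rcases hq with h | h; exacts [Or.inl h.1, Or.inr h.1]
      have ht : t ∈ X := by rcases hq with h | h; exacts [Or.inl h.2, Or.inr h.2]
      obtain ⟨B, hB⟩ := edge hX hφ hs ht p1 p2 p3 hc
      exact ⟨B, fun _ => hB⟩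
    · exact ⟨0, fun h => absurd h hq⟩
  choose B hB using hE
  obtain ⟨B0, hB0⟩ := ((hXfin.prod hXfin).image B).bddAbove
  refine ⟨B0, ?_⟩
  intro M p s x hp hlarge hs hx hreg
  have hlarge' : ∀ q ∈ X ×ˢ X, B q ≤ ‖ph ψ p‖ := fun q hq => (hB0 ⟨q, hq, rfl⟩).trans hlarge
  rw [pow_one]
  -- either (s, x) or (s, x⁻¹) is a pair of the same sign
  have hcase : ((s ∈ S ∧ x ∈ S) ∨ (s ∈ S⁻¹ ∧ x ∈ S⁻¹)) ∨
      ((s ∈ S ∧ x⁻¹ ∈ S) ∨ (s ∈ S⁻¹ ∧ x⁻¹ ∈ S⁻¹)) := by
    rcases hs.1 with h1 | h1 <;> rcases hx with h2 | h2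
    · exact Or.inl (Or.inl ⟨h1, h2⟩)
    · exact Or.inr (Or.inl ⟨h1, by simpa using h2⟩)
    · exact Or.inr (Or.inr ⟨h1, by simpa using h2⟩)
    · exact Or.inl (Or.inr ⟨h1, h2⟩)
  rcases hcase with hq | hq
  · have h1 := hB (s, x) hq M p p hp.1 hreg (Or.inl rfl) hs.2 (hlarge' _ ⟨hs.1, hx⟩)
    exact h1.symm hX
  · have e : p * x * x⁻¹ = p := by group
    have h1 := hB (s, x⁻¹) hq M p (p * x) hreg (by simpa [e] using hp.1) (Or.inr e.symm) hs.2
      (hlarge' _ ⟨hs.1, hX x hx⟩)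
    simpa [e] using h1

end step

end Pool.Agent.TH555.FG
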