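import Pool.Agent.TH555.FG.Noeth

/-! If `G` and `[G, G]` are f.g. then every normal subgroup with nilpotent quotient is f.g.; the
terms of the Johnson filtration of an outer automorphism group (helper555). -/

namespace Pool.Agent.TH555.FG

open Subgroup
open Pool.Agent.H785R3.GrowthA
open scoped commutatorElement

universe u v

section General
variable {G : Type u} [Group G]

theorem gam_fg_of_one (hG : Group.FG G) (h1 : (gam G 1).FG) (n : ℕ) : (gam G n).FG := by
  obtain ⟨S, hS, hfin⟩ := (Subgroup.fg_iff _).1 hG.out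
  induction n with
  | zero => exact hG.out
  | succ n ih =>
    rcases Nat.eq_zero_or_pos n with h0 | h0
    · subst h0; exact h1
    · have : Group.FG (gam G n) := (Group.fg_iff_subgroup_fg _).2 ih
      have h1 : ((gam G (n + 1)).subgroupOf (gam G n)).FG := by
        refine reduce _ ?_ ?_
        · rw [_root_.commutator_def, commutator_le]
          rintro a _ b _
          rw [mem_subgroupOf]
          show ⁅(a : G), (b : G)⁆ ∈ _
          exact gam_comm a.2 b
        · intro m ψ hψ hle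
          exact ker_fg_gam hfin hS h0 ih ψ hψ (fun h hh => hle (by rwa [mem_subgroupOf]))
      have h3 := fg_map (gam G n).subtype h1
      rwa [subgroupOf_map_subtype, inf_eq_left.2 (gam_succ_le n)] at h3

theorem fg_of_nilp (hG : Group.FG G) (h1 : (gam G 1).FG) (N : Subgroup G) [N.Normal]
    (hN : Group.IsNilpotent (G ⧸ N)) : N.FG := by
  obtain ⟨n, hn⟩ := gam_le_of_nilp N hN
  exact fg_of_gam_le (gam_fg_of_one hG h1) n N hn

/-- Three subgroups lemma for normal subgroups. -/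
lemma comm_comm_le' (N D : Subgroup G) [hN : N.Normal] [hD : D.Normal] :
    ⁅N, ⁅D, D⁆⁆ ≤ ⁅⁅N, D⁆, D⁆ := by
  let R : Subgroup G := ⁅⁅N, D⁆, D⁆
  let π : G →* G ⧸ R := QuotientGroup.mk' R
  have hR : ⁅⁅N.map π, D.map π⁆, D.map π⁆ = ⊥ := by
    rw [← Subgroup.map_commutator, ← Subgroup.map_commutator, Subgroup.map_eq_bot_iff]
    exact (QuotientGroup.ker_mk' R).ge
  have h1 : ⁅⁅D.map π, D.map π⁆, N.map π⁆ = ⊥ := by
    apply Subgroup.commutator_commutator_eq_bot_of_rotate
    · rw [Subgroup.commutator_comm (D.map π) (N.map π)]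
      exact hR
    · exact hR
  have h2 : (⁅N, ⁅D, D⁆⁆).map π = ⊥ := by
    rw [Subgroup.map_commutator, Subgroup.map_commutator,
      Subgroup.commutator_comm (N.map π) ⁅D.map π, D.map π⁆]
    exact h1
  rw [Subgroup.map_eq_bot_iff, QuotientGroup.ker_mk'] at h2
  exact h2

lemma comm_gam_one {m : ℕ} {a v : G} (ha : a ∈ gam G m) (hv : v ∈ gam G 1) :
    ⁅a, v⁆ ∈ gam G (m + 2) :=
  comm_comm_le' (gam G m) ⊤ (commutator_mem_commutator ha hv)

lemma comm_mul_eq (A B U V : G) (hU : ∀ y, U * y = y * U) (hV : A * V = V * A) :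
    ⁅A * U, B * V⁆ = ⁅A, B⁆ := by
  have hV' : V * A⁻¹ = A⁻¹ * V := by
    have := congrArg (fun t => A⁻¹ * t * A⁻¹) hV
    simpa [mul_assoc] using this
  rw [commutatorElement_def, commutatorElement_def]
  calc A * U * (B * V) * (A * U)⁻¹ * (B * V)⁻¹
      = A * (U * (B * V)) * (A * U)⁻¹ * (B * V)⁻¹ := by group
    _ = A * ((B * V) * U) * (A * U)⁻¹ * (B * V)⁻¹ := by rw [hU]
    _ = A * B * (V * A⁻¹) * V⁻¹ * B⁻¹ := by group
    _ = A * B * (A⁻¹ * V) * V⁻¹ * B⁻¹ := by rw [hV']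
    _ = A * B * A⁻¹ * B⁻¹ := by group

end General

section Johnson
variable {π : Type u} [Group π]

lemma eq_mul_of (φ : MulAut π) (a : π) : φ a = a * (a⁻¹ * φ a) := by group

/-- automorphisms that are trivial on `π / [π, π]` are trivial on `γ_{m+1} / γ_{m+2}` -/
lemma act_gam {β : MulAut π} (hβ : ∀ x, x⁻¹ * β x ∈ gam π 1) :
    ∀ m : ℕ, ∀ y ∈ gam π m, y⁻¹ * β y ∈ gam π (m + 1) := by
  intro m
  induction m with
  | zero => intro y _; exact hβ y
  | succ m ih =>
    let q : π →* π ⧸ gam π (m + 2) := QuotientGroup.mk' _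
    have h : gam π (m + 1) ≤ q.eqLocus (q.comp β.toMonoidHom) := by
      show ⁅gam π m, (⊤ : Subgroup π)⁆ ≤ _
      rw [commutator_le]
      intro a ha b _
      show q ⁅a, b⁆ = q (β ⁅a, b⁆)
      rw [map_commutatorElement β, map_commutatorElement q, map_commutatorElement q,
        eq_mul_of β a, eq_mul_of β b, map_mul q a, map_mul q b]
      refine (comm_mul_eq _ _ _ _ ?_ ?_).symm
      · intro y
        exact central_quot (ih a ha) y
      · have h1 : q ⁅a, b⁻¹ * β b⁆ = 1 :=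
          (QuotientGroup.eq_one_iff _).2 (comm_gam_one ha (hβ b))
        rw [map_commutatorElement q] at h1
        exact commutatorElement_eq_one_iff_mul_comm.1 h1
    intro y hy
    have h1 : q y = q (β y) := h hy
    exact QuotientGroup.eq.1 h1

lemma act_comm {i : ℕ} {α : MulAut π} (hα : ∀ x, x⁻¹ * α x ∈ gam π i) {v : π}
    (hv : v ∈ gam π 1) : v⁻¹ * α v ∈ gam π (i + 1) := by
  let q : π →* π ⧸ gam π (i + 1) := QuotientGroup.mk' _
  have h : gam π 1 ≤ q.eqLocus (q.comp α.toMonoidHom) := by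
    show ⁅gam π 0, (⊤ : Subgroup π)⁆ ≤ _
    rw [commutator_le]
    intro a _ b _
    show q ⁅a, b⁆ = q (α ⁅a, b⁆)
    rw [map_commutatorElement α, map_commutatorElement q, map_commutatorElement q,
      eq_mul_of α a, eq_mul_of α b, map_mul q a, map_mul q b]
    refine (comm_mul_eq _ _ _ _ ?_ ?_).symm
    · intro y
      exact central_quot (hα a) y
    · exact (central_quot (hα b) _).symm
  have h1 : q v = q (α v) := h hv
  exact QuotientGroup.eq.1 h1

lemma IA_comm {i : ℕ} {α β : MulAut π} (hα : ∀ x, x⁻¹ * α x ∈ gam π i)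
    (hβ : ∀ x, x⁻¹ * β x ∈ gam π 1) : ∀ x, x⁻¹ * (⁅α, β⁆ : MulAut π) x ∈ gam π (i + 1) := by
  let q : π →* π ⧸ gam π (i + 1) := QuotientGroup.mk' _
  have key : ∀ x, q (α (β x)) = q (β (α x)) := by
    intro x
    have h1 : q (β (x⁻¹ * α x)) = q (x⁻¹ * α x) := (QuotientGroup.eq.2 (act_gam hβ i _ (hα x))).symm
    have h2 : q (α (x⁻¹ * β x)) = q (x⁻¹ * β x) := (QuotientGroup.eq.2 (act_comm hα (hβ x))).symm
    have h3 : q (x⁻¹ * α x) * q (x⁻¹ * β x) = q (x⁻¹ * β x) * q (x⁻¹ * α x) :=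
      central_quot (hα x) _
    have e1 : α (β x) = x * (x⁻¹ * α x) * α (x⁻¹ * β x) := by
      conv_lhs => rw [eq_mul_of β x, map_mul]
      group
    have e2 : β (α x) = x * (x⁻¹ * β x) * β (x⁻¹ * α x) := by
      conv_lhs => rw [eq_mul_of α x, map_mul]
      group
    have f1 : q (α (β x)) = q x * q (x⁻¹ * α x) * q (x⁻¹ * β x) := by
      rw [e1, map_mul q (x * (x⁻¹ * α x)), h2, map_mul q x]
    have f2 : q (β (α x)) = q x * q (x⁻¹ * β x) * q (x⁻¹ * α x) := by
      rw [e2, map_mul q (x * (x⁻¹ * β x)), h1, map_mul q x]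
    rw [f1, f2, mul_assoc, mul_assoc, h3]
  intro x
  have h4 := key (α⁻¹ (β⁻¹ x))
  have e3 : β (α (α⁻¹ (β⁻¹ x))) = x := by
    simp [MulAut.inv_def]
  rw [e3] at h4
  have h5 : (⁅α, β⁆ : MulAut π) x = α (β (α⁻¹ (β⁻¹ x))) := by
    rw [commutatorElement_def]
    rfl
  rw [h5]
  exact QuotientGroup.eq.1 h4.symm

/-- All terms of the Johnson filtration are f.g. if the first one and its commutator subgroup
are. -/
theorem johnson_fg {O : Type v} [Group O] (p : MulAut π →* O) (hp : ∀ g, p (MulAut.conj g) = 1)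
    (J : ℕ → Subgroup O)
    (hJ : ∀ k q, q ∈ J k ↔ ∃ (φ : MulAut π) (g : π), p φ = q ∧
      ∀ x, (g * x * g⁻¹)⁻¹ * φ x ∈ gam π k)
    (h1 : (J 1).FG) (h2 : (⁅J 1, J 1⁆).FG) (k : ℕ) (hk : 1 ≤ k) : (J k).FG := by
  -- representatives acting trivially
  have rep : ∀ k q, q ∈ J k → ∃ α : MulAut π, p α = q ∧ ∀ x, x⁻¹ * α x ∈ gam π k := by
    intro k q hq
    obtain ⟨φ, g, hφ, hg⟩ := (hJ k q).1 hq
    refine ⟨(MulAut.conj g)⁻¹ * φ, ?_, ?_⟩
    · rw [map_mul, map_inv, hp, inv_one, one_mul, hφ]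
    · intro x
      have e : ((MulAut.conj g)⁻¹ * φ) x = g⁻¹ * φ x * g := by
        rw [← map_inv, MulAut.mul_apply, MulAut.conj_apply, inv_inv]
      rw [e]
      have h3 := (inferInstance : (gam π k).Normal).conj_mem _ (hg x) g⁻¹
      have e2 : g⁻¹ * ((g * x * g⁻¹)⁻¹ * φ x) * g⁻¹⁻¹ = x⁻¹ * (g⁻¹ * φ x * g) := by group
      rwa [e2] at h3
  have hG : Group.FG (J 1) := (Group.fg_iff_subgroup_fg _).2 h1
  have claim : ∀ n, gam (J 1) n ≤ (J (n + 1)).subgroupOf (J 1) := by
    intro n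
    induction n with
    | zero =>
      intro t _
      rw [mem_subgroupOf]
      exact t.2
    | succ n ih =>
      show ⁅gam (J 1) n, (⊤ : Subgroup (J 1))⁆ ≤ _
      rw [commutator_le]
      intro a ha b _
      obtain ⟨α, hα, hα'⟩ := rep _ _ (mem_subgroupOf.1 (ih ha))
      obtain ⟨β, hβ, hβ'⟩ := rep _ _ b.2
      rw [mem_subgroupOf]
      show ⁅(a : O), (b : O)⁆ ∈ J (n + 1 + 1)
      rw [hJ]
      refine ⟨⁅α, β⁆, 1, ?_, ?_⟩
      · rw [map_commutatorElement p, hα, hβ]
      · intro x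
        have := IA_comm hα' hβ' x
        simpa using this
  have hone : (gam (J 1) 1).FG := by
    have e : (gam (J 1) 1).map (J 1).subtype = ⁅J 1, J 1⁆ := by
      show (⁅(⊤ : Subgroup (J 1)), (⊤ : Subgroup (J 1))⁆).map (J 1).subtype = _
      rw [Subgroup.map_commutator, ← MonoidHom.range_eq_map, Subgroup.range_subtype]
    rw [← e] at h2
    have h3 : Group.FG ((gam (J 1) 1).map (J 1).subtype) := (Group.fg_iff_subgroup_fg _).2 h2
    let E := (gam (J 1) 1).equivMapOfInjective (J 1).subtype (Subgroup.subtype_injective _)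
    have h4 : Group.FG (gam (J 1) 1) :=
      Group.fg_of_surjective (f := E.symm.toMonoidHom) E.symm.surjective
    exact (Group.fg_iff_subgroup_fg _).1 h4
  have hgam := gam_fg_of_one hG hone
  have h5 : ((J k).subgroupOf (J 1)).FG := by
    refine fg_of_gam_le hgam (k - 1) _ ?_
    have := claim (k - 1)
    rwa [Nat.sub_add_cancel hk] at this
  have h6 := fg_map (J 1).subtype h5
  have hle : J k ≤ J 1 := by
    intro q hq
    obtain ⟨α, hα, hα'⟩ := rep _ _ hq
    rw [hJ]
    refine ⟨α, 1, hα, fun x => ?_⟩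
    have h7 : x⁻¹ * α x ∈ gam π 1 :=
      (⊤ : Subgroup π).lowerCentralSeries_antitone hk (hα' x)
    simpa using h7
  rwa [subgroupOf_map_subtype, inf_eq_left.2 hle] at h6

end Johnson

end Pool.Agent.TH555.FG
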