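import Pool.Agent.TH555.FG.Fin
import Pool.Agent.H746UG.Rate

/-! Consequences for (locally Noetherian)-by-nilpotent groups (helper555). -/

namespace Pool.Agent.TH555.FG

open Subgroup Filter Topology
open Pool.Agent.H785R3.GrowthA
open scoped Pointwise commutatorElement

universe u v

variable {G : Type u} [Group G] {S : Set G}

lemma fg_of_inf_gam (hgam : ∀ n, (gam G n).FG) (R : Subgroup G) :
    ∀ n : ℕ, (R ⊓ gam G n).FG → R.FG := by
  intro n
  induction n with
  | zero =>
    intro h
    have e : R ⊓ gam G 0 = R := by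
      apply inf_eq_left.2
      show R ≤ (⊤ : Subgroup G).lowerCentralSeries 0
      rw [Subgroup.lowerCentralSeries_zero]; exact le_top
    rwa [e] at h
  | succ n ih =>
    intro h
    apply ih
    let π' := QuotientGroup.mk' (gam G (n + 1))
    refine lift_fg π' ?_ ?_
    · refine sub_fg (P := (gam G n).map π') (fg_map π' (hgam n)) ?_ (map_mono inf_le_right)
      rintro _ ⟨a, ha, rfl⟩ b _
      exact central_quot ha b
    · have hk' : π'.ker = gam G (n + 1) := QuotientGroup.ker_mk' _
      have : R ⊓ gam G n ⊓ π'.ker = R ⊓ gam G (n + 1) := by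
        rw [hk', inf_assoc, inf_eq_right.2 (gam_succ_le n)]
      rw [this]; exact h

lemma gam_le_of_nilp (N : Subgroup G) [N.Normal] (hN : Group.IsNilpotent (G ⧸ N)) :
    ∃ n, gam G n ≤ N := by
  obtain ⟨n, hn⟩ := (_root_.nilpotent_iff_lowerCentralSeries (G := G ⧸ N)).1 hN
  refine ⟨n, ?_⟩
  have h1 : (gam G n).map (QuotientGroup.mk' N) = ⊥ := by
    rw [← gam_map (QuotientGroup.mk'_surjective N)]
    exact hn
  rw [Subgroup.map_eq_bot_iff, QuotientGroup.ker_mk'] at h1
  exact h1

/-- without free pairs, (locally Noetherian)-by-nilpotent groups are Noetherian -/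
theorem noeth_of_noFree (hfin : S.Finite) (hS : closure S = ⊤) (hNF : NoFree S 3)
    (N : Subgroup G) [N.Normal] (hN : Group.IsNilpotent (G ⧸ N))
    (hL : ∀ K : Subgroup G, K ≤ N → K.FG → ∀ R : Subgroup G, R ≤ K → R.FG) (R : Subgroup G) :
    R.FG := by
  obtain ⟨n, hn⟩ := gam_le_of_nilp N hN
  exact fg_of_inf_gam (gam_fg hfin hS hNF) R n
    (hL N le_rfl (fg_of_nilpotent_quotient hfin hS hNF N hN) _ (inf_le_right.trans hn))

/-- without free pairs, (locally finite)-by-nilpotent groups are virtually nilpotent -/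
theorem virtNilp_of_noFree (hfin : S.Finite) (hS : closure S = ⊤) (hNF : NoFree S 3)
    (N : Subgroup G) [N.Normal] (hN : Group.IsNilpotent (G ⧸ N)) (hL : LF N) :
    Group.IsVirtuallyNilpotent G := by
  obtain ⟨n, hn⟩ := gam_le_of_nilp N hN
  obtain ⟨T, hT, hTfin⟩ := (Subgroup.fg_iff _).1 (fg_of_nilpotent_quotient hfin hS hNF N hN)
  have hfinN : Finite N := by
    rw [← hT]
    apply hL T hTfin
    intro x hx
    have : x ∈ closure T := Subgroup.subset_closure hx
    rwa [hT] at this
  exact virtNilp_of_finite_gam (n := n) (Finite.of_injective (Subgroup.inclusion hn)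
    (Subgroup.inclusion_injective hn))

lemma card_pow_mul (S : Set G) (j n : ℕ) :
    Nat.card ↥(S ^ (j * n)) ≤ Nat.card ↥(S ^ n) ^ j := by
  induction j with
  | zero => simp
  | succ j ih =>
    rw [Nat.succ_mul, pow_succ]
    exact (Pool.Agent.H746UG.card_pow_add S (j * n) n).trans (Nat.mul_le_mul_right _ ih)

/-- a free pair in `S ^ j` for some `j ≤ 3` gives `2 ^ n ≤ |S ^ n| ^ 3` -/
theorem two_pow_of_pair (hfin : S.Finite) (h : ¬ NoFree S 3) (n : ℕ) :
    2 ^ n ≤ Nat.card ↥(S ^ n) ^ 3 := by
  unfold NoFree at h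
  push Not at h
  obtain ⟨j, hj, a, ha, b, hb, hab⟩ := h
  have h1 : 2 ^ n ≤ Nat.card ↥(S ^ (j * n)) := two_pow_le hfin ha hb hab n
  have h2 := h1.trans (card_pow_mul S j n)
  have h3 : 0 < Nat.card ↥(S ^ n) := by
    rcases Nat.eq_zero_or_pos (Nat.card ↥(S ^ n)) with h0 | h0
    · exfalso
      rw [h0] at h2
      rcases Nat.eq_zero_or_pos j with hj0 | hj0
      · subst hj0
        rcases Nat.eq_zero_or_pos n with hn0 | hn0
        · subst hn0
          rw [pow_zero] at h0
          simp at h0
        · have h4 : 2 ^ n ≤ 1 := by simpa using h2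
          have h5 : n < 2 ^ n := Nat.lt_two_pow_self
          omega
      · rw [zero_pow hj0.ne'] at h2
        have : 0 < 2 ^ n := by positivity
        omega
    · exact h0
  exact h2.trans (Nat.pow_le_pow_right h3 hj)

end Pool.Agent.TH555.FG
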