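import Mathlib

/-! Periodic commutator subgroups of relatively free groups (helper555). -/

namespace Pool.Agent.TH555.Per

open Subgroup
open scoped commutatorElement

variable {G : Type} [Group G]

/-- property (P): every value of a commutator word in two variables has bounded order; only the
words that are needed. -/
structure PP (G : Type) [Group G] : Prop where
  com : ∃ n : ℕ, 0 < n ∧ ∀ x y : G, ⁅x, y⁆ ^ n = 1
  pow : ∀ E : ℕ, ∃ q : ℕ, 0 < q ∧ ∀ x y : G, ((x * y) ^ E * (x ^ E * y ^ E)⁻¹) ^ q = 1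

lemma com_word_mem (E : ℕ) (x y : G) : (x * y) ^ E * (x ^ E * y ^ E)⁻¹ ∈ commutator G := by
  have h : (Abelianization.of ((x * y) ^ E * (x ^ E * y ^ E)⁻¹) : Abelianization G) = 1 := by
    rw [map_mul, map_inv, map_mul, map_pow, map_pow, map_pow, map_mul, mul_pow, mul_inv_cancel]
  have h2 := (QuotientGroup.eq_one_iff (N := commutator G) _).1 h
  exact h2

/-- relatively free groups with periodic commutator subgroup have (P). -/
theorem pp_of_free (X : Set G) (hX : closure X = ⊤)
    (hf : ∀ f : X → G, ∃ φ : G →* G, ∀ x : X, φ (x : G) = f x)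
    (hper : ∀ g ∈ commutator G, IsOfFinOrder g) : PP G := by
  classical
  by_cases h2 : ∃ a ∈ X, ∃ b ∈ X, a ≠ b
  · obtain ⟨a, ha, b, hb, hab⟩ := h2
    have hext : ∀ x y : G, ∃ φ : G →* G, φ a = x ∧ φ b = y := by
      intro x y
      obtain ⟨φ, hφ⟩ := hf fun z => if (z : G) = a then x else y
      refine ⟨φ, ?_, ?_⟩
      · have := hφ ⟨a, ha⟩
        simpa using this
      · have := hφ ⟨b, hb⟩
        simpa [hab.symm] using this
    refine ⟨?_, ?_⟩
    · obtain ⟨n, hn, h1⟩ := (isOfFinOrder_iff_pow_eq_one).1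
        (hper ⁅a, b⁆ (commutator_mem_commutator (mem_top _) (mem_top _)))
      refine ⟨n, hn, fun x y => ?_⟩
      obtain ⟨φ, rfl, rfl⟩ := hext x y
      rw [← map_commutatorElement, ← map_pow, h1, map_one]
    · intro E
      obtain ⟨q, hq, h1⟩ := (isOfFinOrder_iff_pow_eq_one).1 (hper _ (com_word_mem E a b))
      refine ⟨q, hq, fun x y => ?_⟩
      obtain ⟨φ, rfl, rfl⟩ := hext x y
      have := congrArg φ h1
      simpa using this
  · push Not at h2
    have hcomm : ∀ x y : G, x * y = y * x := by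
      have hsub : ∀ a ∈ X, ∀ b ∈ X, a * b = b * a := by
        intro a ha b hb
        rw [h2 a ha b hb]
      intro x y
      have hx : x ∈ closure X := by rw [hX]; trivial
      have hy : y ∈ closure X := by rw [hX]; trivial
      have h3 : closure X ≤ centralizer (closure X : Set G) := by
        rw [closure_le]
        intro a ha
        rw [SetLike.mem_coe, mem_centralizer_iff]
        intro z hz
        have h4 : closure X ≤ centralizer {a} := by
          rw [closure_le]
          intro b hb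
          rw [SetLike.mem_coe, mem_centralizer_iff]
          rintro c (rfl : c = a)
          exact hsub _ ha _ hb
        have h5 := h4 hz
        rw [mem_centralizer_iff] at h5
        exact (h5 a rfl).symm
      have h6 := h3 hx
      rw [mem_centralizer_iff] at h6
      exact (h6 y hy).symm
    refine ⟨⟨1, one_pos, fun x y => ?_⟩, fun E => ⟨1, one_pos, fun x y => ?_⟩⟩
    · rw [pow_one, commutatorElement_eq_one_iff_mul_comm]
      exact hcomm x y
    · have : Commute x y := hcomm x y
      rw [pow_one, this.mul_pow, mul_inv_cancel]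

/-- the central step -/
theorem step_central (hP : PP G) (V : Subgroup G) [V.Normal]
    (hV : ∃ E : ℕ, 0 < E ∧ ∀ g ∈ commutator G, g ^ E ∈ V) :
    ∃ E : ℕ, 0 < E ∧ ∀ g ∈ commutator G, g ^ E ∈ ⁅V, (⊤ : Subgroup G)⁆ := by
  obtain ⟨E, hE, hV⟩ := hV
  obtain ⟨n, hn, hcom⟩ := hP.com
  obtain ⟨q, hq, hpow⟩ := hP.pow E
  have ha : ∀ g ∈ commutator G, g ^ (E * q * n) ∈ ⁅V, (⊤ : Subgroup G)⁆ := by
    let π := QuotientGroup.mk' ⁅V, (⊤ : Subgroup G)⁆
    have hcen : ∀ v ∈ V, ∀ g : G, Commute (π v) (π g) := by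
      intro v hv g
      rw [← commutatorElement_eq_one_iff_commute, ← map_commutatorElement]
      exact (QuotientGroup.eq_one_iff _).2 (commutator_mem_commutator hv (mem_top _))
    have hcen' : ∀ v ∈ V, ∀ z, Commute (π v) z := by
      intro v hv z
      obtain ⟨g, rfl⟩ := QuotientGroup.mk'_surjective _ z
      exact hcen v hv g
    have key : ∀ g ∈ commutator G, (π g) ^ (E * q * n) = 1 := by
      intro g hg
      have hg' : g ∈ closure {g | ∃ g₁ ∈ (⊤ : Subgroup G), ∃ g₂ ∈ (⊤ : Subgroup G), ⁅g₁, g₂⁆ = g} := by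
        exact hg
      suffices h : g ∈ commutator G ∧ (π g) ^ (E * q * n) = 1 from h.2
      induction hg' using closure_induction with
      | mem x hx =>
        obtain ⟨a, -, b, -, rfl⟩ := hx
        refine ⟨commutator_mem_commutator (mem_top _) (mem_top _), ?_⟩
        rw [← map_pow, mul_comm (E * q) n, pow_mul, hcom, one_pow, map_one]
      | one => exact ⟨one_mem _, by rw [map_one, one_pow]⟩
      | inv x _ hx =>
        have hx := hx (inv_mem_iff.1 hg)
        exact ⟨inv_mem hx.1, by rw [map_inv, inv_pow, hx.2, inv_one]⟩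
      | mul x y hx' hy' hx hy =>
        have hxm : x ∈ commutator G := hx'
        have hym : y ∈ commutator G := hy'
        have hx := hx hxm
        have hy := hy hym
        refine ⟨mul_mem hxm hym, ?_⟩
        have h1 := hcen' _ (hV x hxm)
        have h2 := hcen' _ (hV y hym)
        have h3 : (π (x * y)) ^ E = π ((x * y) ^ E * (x ^ E * y ^ E)⁻¹) * (π (x ^ E) * π (y ^ E)) := by
          rw [← map_pow, ← map_mul, ← map_mul]
          congr 1
          group
        have h4 : (π ((x * y) ^ E * (x ^ E * y ^ E)⁻¹)) ^ q = 1 := by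
          rw [← map_pow, hpow, map_one]
        have h5 : (π (x * y)) ^ (E * q) = (π x) ^ (E * q) * (π y) ^ (E * q) := by
          rw [pow_mul, h3, Commute.mul_pow (((h1 _).symm).mul_right ((h2 _).symm)), h4, one_mul,
            Commute.mul_pow (h1 _), map_pow, map_pow, ← pow_mul, ← pow_mul]
        have h6 : Commute ((π x) ^ (E * q)) ((π y) ^ (E * q)) := by
          have : (π x) ^ (E * q) = (π (x ^ E)) ^ q := by rw [map_pow, pow_mul]
          rw [this]
          exact (h1 _).pow_left q
        rw [pow_mul, h5, h6.mul_pow, ← pow_mul, ← pow_mul, hx.2, hy.2, one_mul]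
    intro g hg
    have := key g hg
    rw [← map_pow] at this
    exact (QuotientGroup.eq_one_iff _).1 this
  exact ⟨E * q * n, by positivity, ha⟩

/-- the abelian step -/
theorem step_ab (hP : PP G) (V : Subgroup G) [V.Normal]
    (hV : ∃ E : ℕ, 0 < E ∧ ∀ g ∈ commutator G, g ^ E ∈ V) :
    ∃ E : ℕ, 0 < E ∧ ∀ g ∈ commutator G, g ^ E ∈ ⁅V, V⁆ := by
  obtain ⟨E, hE, ha⟩ := step_central hP V hV
  obtain ⟨n, hn, hcom⟩ := hP.com
  -- (b)
  have hb : ∀ m ∈ ⁅V, (⊤ : Subgroup G)⁆, m ^ n ∈ ⁅V, V⁆ := by
    let π := QuotientGroup.mk' ⁅V, V⁆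
    have hle : ⁅V, (⊤ : Subgroup G)⁆ ≤ V := commutator_le_left V ⊤
    have hcen : ∀ v ∈ V, ∀ g ∈ V, Commute (π v) (π g) := by
      intro v hv g hg
      rw [← commutatorElement_eq_one_iff_commute, ← map_commutatorElement]
      exact (QuotientGroup.eq_one_iff _).2 (commutator_mem_commutator hv hg)
    have key : ∀ m ∈ ⁅V, (⊤ : Subgroup G)⁆, (π m) ^ n = 1 := by
      intro g hg
      have hg' : g ∈ closure {g | ∃ g₁ ∈ V, ∃ g₂ ∈ (⊤ : Subgroup G), ⁅g₁, g₂⁆ = g} := hg
      suffices h : g ∈ V ∧ (π g) ^ n = 1 from h.2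
      clear hg
      induction hg' using closure_induction with
      | mem x hx =>
        obtain ⟨a, ha, b, hb, rfl⟩ := hx
        exact ⟨hle (commutator_mem_commutator ha hb), by rw [← map_pow, hcom, map_one]⟩
      | one => exact ⟨one_mem _, by rw [map_one, one_pow]⟩
      | inv x _ hx => exact ⟨inv_mem hx.1, by rw [map_inv, inv_pow, hx.2, inv_one]⟩
      | mul x y _ _ hx hy =>
        exact ⟨mul_mem hx.1 hy.1, by rw [map_mul, (hcen _ hx.1 _ hy.1).mul_pow, hx.2, hy.2, one_mul]⟩
    intro m hm
    have := key m hm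
    rw [← map_pow] at this
    exact (QuotientGroup.eq_one_iff _).1 this
  refine ⟨E * n, by positivity, fun g hg => ?_⟩
  rw [pow_mul]
  exact hb _ (ha g hg)

/-- The commutators of elements of `V` lie in `W`. -/
def AbelianStep (V W : Subgroup G) : Prop := ∀ x ∈ V, ∀ y ∈ V, ⁅x, y⁆ ∈ W

/-- For each `n`, the elements with some positive power in `W` of the group generated by the
elements `v` of `V` with `v ^ n ∈ W` have a common positive power in `W`. -/
def TameStep (V W : Subgroup G) : Prop :=
  ∀ n : ℕ, 0 < n → ∃ f : ℕ, 0 < f ∧ ∀ x ∈ closure {v : G | v ∈ V ∧ v ^ n ∈ W},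
    (∃ k : ℕ, 0 < k ∧ x ^ k ∈ W) → x ^ f ∈ W

/-- the main theorem for groups with (P). -/
theorem main (hP : PP G) (hper : ∀ g ∈ commutator G, IsOfFinOrder g) (s : ℕ)
    (N : ℕ → Subgroup G) (h0 : N 0 = ⊥) (hs : N s = ⊤)
    (hN : ∀ i < s, AbelianStep (N (i + 1)) (N i) ∨ TameStep (N (i + 1)) (N i)) :
    ∃ n : ℕ, 0 < n ∧ ∀ g ∈ commutator G, g ^ n = 1 := by
  have claim : ∀ i ≤ s, ∃ E : ℕ, 0 < E ∧ ∀ g ∈ commutator G, g ^ E ∈ N (s - i) := by
    intro i
    induction i with
    | zero =>
      intro _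
      exact ⟨1, one_pos, fun _ _ => by rw [Nat.sub_zero, hs]; exact mem_top _⟩
    | succ i ih =>
      intro hi
      obtain ⟨E, hE, hV⟩ := ih (by omega)
      have e1 : s - i = (s - (i + 1)) + 1 := by omega
      rw [e1] at hV
      set V : Subgroup G := normalClosure {x | ∃ v ∈ commutator G, x = v ^ E} with hVdef
      have hle : V ≤ N (s - (i + 1) + 1) := by
        rw [hVdef, normalClosure, closure_le]
        intro x hx
        rw [Group.mem_conjugatesOfSet_iff] at hx
        obtain ⟨a, ⟨v, hv, rfl⟩, hc⟩ := hx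
        obtain ⟨c, rfl⟩ := isConj_iff.1 hc
        rw [← conj_pow]
        exact hV _ ((inferInstance : (commutator G).Normal).conj_mem v hv c)
      have hVn : V.Normal := normalClosure_normal
      have hVE : ∃ E : ℕ, 0 < E ∧ ∀ g ∈ commutator G, g ^ E ∈ V :=
        ⟨E, hE, fun g hg => subset_normalClosure ⟨g, hg, rfl⟩⟩
      rcases hN (s - (i + 1)) (by omega) with h | h
      · obtain ⟨E', hE', h'⟩ := step_ab hP V hVE
        refine ⟨E', hE', fun g hg => ?_⟩
        have hle2 : ⁅V, V⁆ ≤ N (s - (i + 1)) := by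
          rw [commutator_le]
          intro x hx y hy
          exact h x (hle hx) y (hle hy)
        exact hle2 (h' g hg)
      · obtain ⟨E', hE', h'⟩ := step_central hP V hVE
        obtain ⟨n, hn, hcom⟩ := hP.com
        obtain ⟨f, hf, h⟩ := h n hn
        refine ⟨E' * f, Nat.mul_pos hE' hf, fun g hg => ?_⟩
        rw [pow_mul]
        refine h _ ?_ ?_
        · have hle2 : ⁅V, (⊤ : Subgroup G)⁆ ≤
              closure {v : G | v ∈ N (s - (i + 1) + 1) ∧ v ^ n ∈ N (s - (i + 1))} := by
            rw [commutator_le]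
            intro x hx y hy
            refine subset_closure ⟨hle (commutator_le_left V ⊤ (commutator_mem_commutator hx hy)), ?_⟩
            rw [hcom]
            exact one_mem _
          exact hle2 (h' g hg)
        · obtain ⟨k, hk, h1⟩ := (isOfFinOrder_iff_pow_eq_one).1 (hper g hg)
          refine ⟨k, hk, ?_⟩
          rw [← pow_mul, mul_comm, pow_mul, h1, one_pow]
          exact one_mem _
  obtain ⟨E, hE, hV⟩ := claim s le_rfl
  rw [Nat.sub_self, h0] at hV
  exact ⟨E, hE, fun g hg => mem_bot.1 (hV g hg)⟩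

end Pool.Agent.TH555.Per
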