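import Pool.Agent.TH555.FG.Desc
import Pool.Agent.H785R3.GrowthB

/-! The distortion step: from `γ_k` finitely generated to kernels of invariant maps `γ_k → ℤ ^ m`
(helper555). -/

namespace Pool.Agent.TH555.FG

open Subgroup
open Pool.Agent.H785R3.GrowthA (gam gam_comm gam_succ_le)
open scoped InnerProductSpace Pointwise commutatorElement

universe u v

section wl

variable {G : Type u} [Group G]

/-- `g` is a product of at most `n` elements of `S ∪ S⁻¹` -/
def WL (S : Set G) (n : ℕ) (g : G) : Prop :=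
  ∃ l : List G, l.length ≤ n ∧ (∀ y ∈ l, y ∈ S ∨ y⁻¹ ∈ S) ∧ l.prod = g

variable {S : Set G}

lemma WL.one (n : ℕ) : WL S n (1 : G) := ⟨[], by simp, by simp, by simp⟩

lemma WL.mono {n n' : ℕ} (h : n ≤ n') {g : G} (hg : WL S n g) : WL S n' g := by
  obtain ⟨l, h1, h2, h3⟩ := hg
  exact ⟨l, h1.trans h, h2, h3⟩

lemma WL.mul {n n' : ℕ} {g g' : G} (hg : WL S n g) (hg' : WL S n' g') : WL S (n + n') (g * g') := by
  obtain ⟨l, h1, h2, h3⟩ := hg
  obtain ⟨l', h1', h2', h3'⟩ := hg'
  refine ⟨l ++ l', by simp; omega, ?_, by simp [h3, h3']⟩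
  intro y hy
  rcases List.mem_append.1 hy with h | h
  · exact h2 y h
  · exact h2' y h

lemma WL.inv {n : ℕ} {g : G} (hg : WL S n g) : WL S n g⁻¹ := by
  obtain ⟨l, h1, h2, h3⟩ := hg
  refine ⟨(l.map (·⁻¹)).reverse, by simpa using h1, ?_, ?_⟩
  · intro y hy
    simp only [List.mem_reverse, List.mem_map] at hy
    obtain ⟨z, hz, rfl⟩ := hy
    rcases h2 z hz with h | h
    · right; simpa using h
    · left; exact h
  · rw [← List.prod_inv_reverse, h3]

lemma WL.pow {n : ℕ} {g : G} (hg : WL S n g) (k : ℕ) : WL S (n * k) (g ^ k) := by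
  induction k with
  | zero => simpa using WL.one (S := S) 0
  | succ k ih => rw [pow_succ, Nat.mul_succ]; exact ih.mul hg

lemma WL.exists (hS : closure S = ⊤) (g : G) : ∃ n, WL S n g := by
  have hg : g ∈ closure S := by rw [hS]; exact mem_top _
  induction hg using Subgroup.closure_induction with
  | mem x hx => exact ⟨1, [x], by simp, by simpa using Or.inl hx, by simp⟩
  | one => exact ⟨0, WL.one 0⟩
  | mul x y _ _ hx hy =>
    obtain ⟨a, ha⟩ := hx
    obtain ⟨b, hb⟩ := hy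
    exact ⟨_, ha.mul hb⟩
  | inv x _ hx =>
    obtain ⟨a, ha⟩ := hx
    exact ⟨_, ha.inv⟩

end wl

section dist

lemma heis_pow {Q : Type*} [Group Q] {u x c : Q} (hc : ∀ y, c * y = y * c)
    (h : u * x = c * (x * u)) (a b : ℕ) : u ^ a * x ^ b = c ^ (a * b) * (x ^ b * u ^ a) := by
  have hcc : ∀ (n : ℕ) (y : Q), c ^ n * y = y * c ^ n := fun n y =>
    ((Commute.pow_left (show Commute c y from hc y) n)).eq
  have h1 : ∀ b : ℕ, u * x ^ b = c ^ b * (x ^ b * u) := by
    intro b
    induction b with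
    | zero => simp
    | succ b ih =>
      calc u * x ^ (b + 1) = (u * x ^ b) * x := by rw [pow_succ]; simp only [mul_assoc]
        _ = c ^ b * (x ^ b * u) * x := by rw [ih]
        _ = c ^ b * (x ^ b * (u * x)) := by simp only [mul_assoc]
        _ = c ^ b * (x ^ b * (c * (x * u))) := by rw [h]
        _ = c ^ b * ((x ^ b * c) * (x * u)) := by simp only [mul_assoc]
        _ = c ^ b * ((c * x ^ b) * (x * u)) := by rw [hc]
        _ = c ^ (b + 1) * (x ^ (b + 1) * u) := by
          rw [pow_succ c, pow_succ x]; simp only [mul_assoc]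
  induction a with
  | zero => simp
  | succ a ih =>
    calc u ^ (a + 1) * x ^ b = u ^ a * (u * x ^ b) := by rw [pow_succ]; simp only [mul_assoc]
      _ = u ^ a * (c ^ b * (x ^ b * u)) := by rw [h1]
      _ = (u ^ a * c ^ b) * (x ^ b * u) := by simp only [mul_assoc]
      _ = (c ^ b * u ^ a) * (x ^ b * u) := by rw [← hcc b (u ^ a)]
      _ = c ^ b * (u ^ a * x ^ b) * u := by simp only [mul_assoc]
      _ = c ^ b * (c ^ (a * b) * (x ^ b * u ^ a)) * u := by rw [ih]
      _ = c ^ ((a + 1) * b) * (x ^ b * u ^ (a + 1)) := by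
        rw [add_mul, one_mul, add_comm, pow_add, pow_succ u]; simp only [mul_assoc]

variable {G : Type u} [Group G] {S : Set G}

lemma central_quot {n : ℕ} {z : G} (hz : z ∈ gam G n) (y : G ⧸ gam G (n + 1)) :
    (z : G ⧸ gam G (n + 1)) * y = y * z := by
  obtain ⟨g, rfl⟩ := QuotientGroup.mk_surjective y
  have h1 := (QuotientGroup.eq_one_iff _).2 (gam_comm hz g)
  rw [commutatorElement_def] at h1
  simp only [QuotientGroup.mk_mul, QuotientGroup.mk_inv] at h1
  rwa [mul_inv_eq_one, mul_inv_eq_iff_eq_mul] at h1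

/-- elements of `γ_{n+1}` are polynomially distorted modulo `γ_{n+2}` -/
theorem distortion (hS : closure S = ⊤) (n : ℕ) : ∀ h ∈ gam G n, ∃ C : ℕ, ∀ N : ℕ,
    ∃ g ∈ gam G n, WL S (C * N) g ∧ (g : G ⧸ gam G (n + 1)) = (h : G ⧸ gam G (n + 1)) ^ N ^ (n + 1) := by
  induction n with
  | zero =>
    intro h _
    obtain ⟨C, hC⟩ := WL.exists hS h
    exact ⟨C, fun N => ⟨h ^ N, mem_top _, hC.pow N, by simp only [zero_add, pow_one]; rfl⟩⟩
  | succ n ih =>
    intro h hh
    have hgen : gam G (n + 1) = closure {g | ∃ u ∈ gam G n, ∃ x ∈ (⊤ : Subgroup G), ⁅u, x⁆ = g} := by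
      show (⊤ : Subgroup G).lowerCentralSeries (n + 1) = _
      rw [Subgroup.lowerCentralSeries_succ]
      rfl
    have hcent : ∀ z ∈ gam G (n + 1), ∀ y : G ⧸ gam G (n + 1 + 1),
        (z : G ⧸ gam G (n + 1 + 1)) * y = y * z := fun z hz y => central_quot hz y
    have hh' := hh
    rw [hgen] at hh'
    have hmem : ∀ x ∈ closure {g | ∃ u ∈ gam G n, ∃ x ∈ (⊤ : Subgroup G), ⁅u, x⁆ = g},
      x ∈ gam G (n + 1) := by intro x hx; rw [hgen]; exact hx
    induction hh' using Subgroup.closure_induction with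
    | mem _ hx =>
      obtain ⟨u, hu, x, _, rfl⟩ := hx
      obtain ⟨C, hC⟩ := ih u hu
      obtain ⟨k, hk⟩ := WL.exists hS x
      refine ⟨C + k + (C + k), fun N => ?_⟩
      obtain ⟨g, hg, hwl, heq⟩ := hC N
      refine ⟨⁅g, x ^ N⁆, gam_comm hg _, ?_, ?_⟩
      · rw [commutatorElement_def]
        have h1 := hk.pow N
        have h2 := ((hwl.mul h1).mul hwl.inv).mul h1.inv
        refine h2.mono (le_of_eq ?_)
        ring
      · -- pass to the quotient
        set π : G → G ⧸ gam G (n + 1 + 1) := fun a => (a : G ⧸ gam G (n + 1 + 1)) with hπ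
        have hπm : ∀ a b, π (a * b) = π a * π b := fun a b => rfl
        have hz : g⁻¹ * u ^ N ^ (n + 1) ∈ gam G (n + 1) := by
          rw [← QuotientGroup.eq]
          rw [heq]; rfl
        -- `g = u ^ _ * z⁻¹`
        have hz2 := hcent _ hz
        have e1 : π u * π x = π ⁅u, x⁆ * (π x * π u) := by
          rw [← hπm, ← hπm, ← hπm, commutatorElement_def]; congr 1; group
        have e2 := heis_pow (hcent _ (gam_comm hu x)) e1 (N ^ (n + 1)) N
        have e3 : π (u ^ N ^ (n + 1)) = π g * π (g⁻¹ * u ^ N ^ (n + 1)) := by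
          rw [← hπm]; congr 1; group
        have e4 : π u ^ N ^ (n + 1) = π (u ^ N ^ (n + 1)) := rfl
        have e5 : π x ^ N = π (x ^ N) := rfl
        rw [e4, e5, e3] at e2
        have hz3 : ∀ y, π (g⁻¹ * u ^ N ^ (n + 1)) * y = y * π (g⁻¹ * u ^ N ^ (n + 1)) := hz2
        have e6 : π g * π (x ^ N) * π (g⁻¹ * u ^ N ^ (n + 1)) =
            π ⁅u, x⁆ ^ (N ^ (n + 1) * N) * (π (x ^ N) * π g) * π (g⁻¹ * u ^ N ^ (n + 1)) := by
          have h1 : π g * π (x ^ N) * π (g⁻¹ * u ^ N ^ (n + 1)) =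
              π g * π (g⁻¹ * u ^ N ^ (n + 1)) * π (x ^ N) := by
            rw [mul_assoc, mul_assoc, hz3]
          rw [h1, e2]
          simp only [mul_assoc]
          rfl
        have e7 := mul_right_cancel e6
        show π ⁅g, x ^ N⁆ = π ⁅u, x⁆ ^ N ^ (n + 1 + 1)
        rw [commutatorElement_def, hπm, hπm, hπm, pow_succ N (n + 1)]
        have e8 : π g * π (x ^ N) * π g⁻¹ * π (x ^ N)⁻¹ = π g * π (x ^ N) * (π (x ^ N) * π g)⁻¹ := by
          rw [mul_inv_rev]
          simp only [mul_assoc]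
          rfl
        rw [e8, e7, mul_assoc, mul_inv_cancel, mul_one]
    | one => exact ⟨0, fun N => ⟨1, one_mem _, WL.one _, by rw [QuotientGroup.mk_one, one_pow]⟩⟩
    | mul x y hx' hy' hx hy =>
      obtain ⟨C, hC⟩ := hx (hmem _ hx')
      obtain ⟨D, hD⟩ := hy (hmem _ hy')
      refine ⟨C + D, fun N => ?_⟩
      obtain ⟨g, hg, hwl, heq⟩ := hC N
      obtain ⟨g', hg', hwl', heq'⟩ := hD N
      refine ⟨g * g', mul_mem hg hg', (hwl.mul hwl').mono (le_of_eq (by ring)), ?_⟩
      rw [QuotientGroup.mk_mul, QuotientGroup.mk_mul, heq, heq']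
      have hc : Commute (x : G ⧸ gam G (n + 1 + 1)) (y : G ⧸ gam G (n + 1 + 1)) :=
        hcent _ (hmem _ hx') _
      rw [hc.mul_pow]
    | inv x hx' hx =>
      obtain ⟨C, hC⟩ := hx (hmem _ hx')
      refine ⟨C, fun N => ?_⟩
      obtain ⟨g, hg, hwl, heq⟩ := hC N
      refine ⟨g⁻¹, inv_mem hg, hwl.inv, ?_⟩
      rw [QuotientGroup.mk_inv, QuotientGroup.mk_inv, heq, inv_pow]

end dist

end Pool.Agent.TH555.FG
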